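import Pool.Agent.Helper49.PL.Uniq

/-!
Block PL-C: convergence of laws of continuous paths (only Mathlib).

Paper proof of `conv`. Put `ν n` in `ProbabilityMeasure C(TI, ℝ)`. By Prokhorov (`isCompact_closure_of_isTightMeasureSet`) the closure of the range is compact. Every cluster point `μ` of the sequence satisfies the two inequalities (X): `μ {b < ev f (s)} ≤ F p s b ≤ μ {b ≤ ev f (s)}`: the space of probability measures
is metrizable here (Levy Prokhorov) so `μ` is the limit of a subsequence, or use an ultrafilter `≤ atTop` converging to `μ`; portmanteau (`ProbabilityMeasure.le_liminf_measure_open_of_tendsto`, `limsup_measure_closed_le_of_tendsto`): `{b < ev f s}` is open and contained in `{b ≤ ev f s}`, so its `μ`-measure is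
`≤ liminf (ν n) {b < ..} ≤ lim (ν n) {b ≤ ..} = F`; `{b ≤ ev f s}` is closed, so `F = lim (ν n) {b ≤ ..} ≤ μ {b ≤ ..}`. By `fdd_ext` any two cluster points are equal. A sequence in a compact set with exactly one cluster point converges (`isCompact.tendsto_nhds_of_unique_mapClusterPt` or via ultrafilters: every ultrafilter `≤ atTop`
maps to an ultrafilter on the compact set, which converges to a cluster point, i.e. to the same `μ`; `tendsto_iff_ultrafilter`). Convergence in `ProbabilityMeasure` is convergence of the integrals of bounded continuous functions (`ProbabilityMeasure.tendsto_iff_forall_integral_tendsto`).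
-/

open Set Filter MeasureTheory

namespace Pool.Agent.Helper49.PL

private lemma clust56 {ν : ℕ → Measure C(TI, ℝ)} [∀ n, IsProbabilityMeasure (ν n)]
    {F : ∀ p : ℕ, (Fin p → ℝ) → (Fin p → ℝ) → ℝ}
    (hF : ∀ p : ℕ, 1 ≤ p → ∀ s b : Fin p → ℝ, StrictMono s → (∀ i, -1 < s i ∧ s i < 1) → (∀ i, b i ≠ 0) →
      Tendsto (fun n => (ν n).real {f | ∀ i, b i ≤ ev f (s i)}) atTop (nhds (F p s b)))
    {U : Filter ℕ} [U.NeBot] (hU : U ≤ atTop) {μ : ProbabilityMeasure C(TI, ℝ)}
    {ν' : ℕ → ProbabilityMeasure C(TI, ℝ)} (hν' : ∀ n, ((ν' n : ProbabilityMeasure C(TI, ℝ)) : Measure C(TI, ℝ)) = ν n)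
    (hμ : Tendsto ν' U (nhds μ)) :
    ∀ p : ℕ, 1 ≤ p → ∀ s b : Fin p → ℝ, StrictMono s → (∀ i, -1 < s i ∧ s i < 1) → (∀ i, b i ≠ 0) →
      (μ : Measure C(TI, ℝ)).real {f | ∀ i, b i < ev f (s i)} ≤ F p s b ∧
        F p s b ≤ (μ : Measure C(TI, ℝ)).real {f | ∀ i, b i ≤ ev f (s i)} := by
  intro p hp s b hs hs1 hb
  have hlim := (hF p hp s b hs hs1 hb).mono_left hU
  have hF0 : 0 ≤ F p s b := ge_of_tendsto' hlim fun n => measureReal_nonneg
  have hopen : IsOpen {f : C(TI, ℝ) | ∀ i, b i < ev f (s i)} := by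
    have h1 : {f : C(TI, ℝ) | ∀ i, b i < ev f (s i)} = ⋂ i, {f : C(TI, ℝ) | b i < ev f (s i)} := by
      ext f
      simp
    rw [h1]
    exact isOpen_iInter_of_finite fun i => isOpen_lt continuous_const (ev_cont (s i))
  have hclosed : IsClosed {f : C(TI, ℝ) | ∀ i, b i ≤ ev f (s i)} := by
    have h1 : {f : C(TI, ℝ) | ∀ i, b i ≤ ev f (s i)} = ⋂ i, {f : C(TI, ℝ) | b i ≤ ev f (s i)} := by
      ext f
      simp
    rw [h1]
    exact isClosed_iInter fun i => isClosed_le continuous_const (ev_cont (s i))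
  have hlim' : Tendsto (fun n => (ν n) {f | ∀ i, b i ≤ ev f (s i)}) U (nhds (ENNReal.ofReal (F p s b))) := by
    have h1 := ENNReal.tendsto_ofReal hlim
    refine h1.congr fun n => ?_
    rw [measureReal_def, ENNReal.ofReal_toReal (measure_ne_top _ _)]
  constructor
  · have h1 := ProbabilityMeasure.le_liminf_measure_open_of_tendsto hμ hopen
    simp only [hν'] at h1
    have h2 : (U.liminf fun n => (ν n) {f | ∀ i, b i < ev f (s i)}) ≤ ENNReal.ofReal (F p s b) := by
      rw [← hlim'.liminf_eq]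
      exact liminf_le_liminf (Eventually.of_forall fun n => measure_mono fun f hf i => (hf i).le)
    have h3 := h1.trans h2
    rw [measureReal_def]
    calc ((μ : Measure C(TI, ℝ)) {f | ∀ i, b i < ev f (s i)}).toReal
        ≤ (ENNReal.ofReal (F p s b)).toReal := ENNReal.toReal_mono ENNReal.ofReal_ne_top h3
      _ = F p s b := ENNReal.toReal_ofReal hF0
  · have h1 := ProbabilityMeasure.limsup_measure_closed_le_of_tendsto hμ hclosed
    simp only [hν'] at h1
    have h2 : ENNReal.ofReal (F p s b) ≤ (μ : Measure C(TI, ℝ)) {f | ∀ i, b i ≤ ev f (s i)} := by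
      rw [← hlim'.limsup_eq]
      exact h1
    rw [measureReal_def]
    calc F p s b = (ENNReal.ofReal (F p s b)).toReal := (ENNReal.toReal_ofReal hF0).symm
      _ ≤ ((μ : Measure C(TI, ℝ)) {f | ∀ i, b i ≤ ev f (s i)}).toReal :=
          ENNReal.toReal_mono (measure_ne_top _ _) h2

theorem conv {ν : ℕ → Measure C(TI, ℝ)} [∀ n, IsProbabilityMeasure (ν n)]
    (ht : IsTightMeasureSet (Set.range ν)) {F : ∀ p : ℕ, (Fin p → ℝ) → (Fin p → ℝ) → ℝ}
    (hF : ∀ p : ℕ, 1 ≤ p → ∀ s b : Fin p → ℝ, StrictMono s → (∀ i, -1 < s i ∧ s i < 1) → (∀ i, b i ≠ 0) →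
      Tendsto (fun n => (ν n).real {f | ∀ i, b i ≤ ev f (s i)}) atTop (nhds (F p s b))) :
    ∃ μ : Measure C(TI, ℝ), IsProbabilityMeasure μ ∧
      (∀ G : C(TI, ℝ) → ℝ, Continuous G → (∃ B : ℝ, ∀ f, |G f| ≤ B) →
        Tendsto (fun n => ∫ f, G f ∂(ν n)) atTop (nhds (∫ f, G f ∂μ))) ∧
      ∀ p : ℕ, 1 ≤ p → ∀ s b : Fin p → ℝ, StrictMono s → (∀ i, -1 < s i ∧ s i < 1) → (∀ i, b i ≠ 0) →
        μ.real {f | ∀ i, b i < ev f (s i)} ≤ F p s b ∧ F p s b ≤ μ.real {f | ∀ i, b i ≤ ev f (s i)} := by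
  set ν' : ℕ → ProbabilityMeasure C(TI, ℝ) := fun n => ⟨ν n, inferInstance⟩ with hν'
  have hK : IsCompact (closure (Set.range ν')) := by
    refine isCompact_closure_of_isTightMeasureSet ?_
    have h1 : {x | ∃ μ ∈ Set.range ν', ((μ : ProbabilityMeasure C(TI, ℝ)) : Measure C(TI, ℝ)) = x} =
        Set.range ν := by
      ext x
      constructor
      · rintro ⟨_, ⟨n, rfl⟩, rfl⟩
        exact ⟨n, rfl⟩
      · rintro ⟨n, rfl⟩
        exact ⟨ν' n, ⟨n, rfl⟩, rfl⟩
    exact h1 ▸ ht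
  have hmem : ∀ n, ν' n ∈ closure (Set.range ν') := fun n => subset_closure ⟨n, rfl⟩
  obtain ⟨μ, hμK, hμ⟩ := hK.exists_mapClusterPt_of_frequently (l := atTop) (f := ν')
    (Eventually.frequently (Eventually.of_forall hmem))
  have hX : ∀ μ' : ProbabilityMeasure C(TI, ℝ), MapClusterPt μ' atTop ν' →
      ∀ p : ℕ, 1 ≤ p → ∀ s b : Fin p → ℝ, StrictMono s → (∀ i, -1 < s i ∧ s i < 1) → (∀ i, b i ≠ 0) →
      (μ' : Measure C(TI, ℝ)).real {f | ∀ i, b i < ev f (s i)} ≤ F p s b ∧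
        F p s b ≤ (μ' : Measure C(TI, ℝ)).real {f | ∀ i, b i ≤ ev f (s i)} := by
    intro μ' hμ'
    obtain ⟨U, hU, hU'⟩ := mapClusterPt_iff_ultrafilter.1 hμ'
    exact clust56 hF hU (fun n => rfl) hU'
  have hlim : Tendsto ν' atTop (nhds μ) := by
    refine hK.tendsto_nhds_of_unique_mapClusterPt (Eventually.of_forall hmem) ?_
    intro μ' _ hμ'
    have h1 : (μ' : Measure C(TI, ℝ)) = (μ : Measure C(TI, ℝ)) := fdd_ext (hX μ' hμ') (hX μ hμ)
    exact Subtype.ext h1
  refine ⟨(μ : Measure C(TI, ℝ)), inferInstance, ?_, hX μ hμ⟩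
  intro G hG hB
  obtain ⟨B, hB⟩ := hB
  let G' : BoundedContinuousFunction C(TI, ℝ) ℝ := BoundedContinuousFunction.ofNormedAddCommGroup G hG B hB
  have h1 := (ProbabilityMeasure.tendsto_iff_forall_integral_tendsto.1 hlim) G'
  exact h1

end Pool.Agent.Helper49.PL
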