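import Pool.Agent.Helper49.PL.Def

/-!
Block PL-U: a probability measure on the space of continuous paths is determined by its finite dimensional distributions (only Mathlib).

Paper proof of `path_ext`. Let `𝒞` be the family of the sets `{f | ∀ s ∈ S, b s < ev f s}`, `S` a finite subset of `(-1, 1)`, `b : ℝ → ℝ`. It is a π-system: the intersection of the sets for `(S, b)` and `(S', b')` is the set for `S ∪ S'` and `c s = max (b s) (b' s)` on `S ∩ S'`, `b s` on `S \ S'`, `b' s` on `S' \ S`. It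
generates the Borel sigma-algebra: the sets are open; conversely `{f | r < ev f s}` (`-1 < s < 1`, `r` real) generate the sigma-algebra for which all evaluations `ev · s`, `-1 < s < 1`, are measurable, and a closed ball `{f | dist f g ≤ r} = ⋂_{s rational in (-1, 1)} {f | |ev f s - ev g s| ≤ r}` (`ContinuousMap.dist_le`; density and
continuity) belongs to it; the space is second countable (metric), so every open set is a countable union of closed balls. `ext_of_generate_finite` (`MeasureTheory.ext_of_generate_finite`), total masses `1`.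
`fdd_ext`: for probability measures with `μ {∀ i, b i < ev f (s i)} ≤ F p s b ≤ μ {∀ i, b i ≤ ev f (s i)}` for all `p ≥ 1`, strictly increasing `s : Fin p → (-1, 1)` and all `b` without zero coordinates, and the same for `ν`: for arbitrary `b` choose `b^k` with `b_i < b^{k+1}_i < b^k_i`, `b^k → b`, nonzero coordinates
(e.g. `b_i + c_i/(k+1)` with suitable `c_i > 0`, or `b_i + 2^(-k) c` with `c` avoiding countably many values). `{∀ i, b^k_i < ..}` and `{∀ i, b^k_i ≤ ..}` both increase to `{∀ i, b_i < ..}`, so `μ {∀ i, b_i < ..} = lim_k μ {∀ i, b^k_i < ..} ≤ liminf F (b^k)` and `limsup F (b^k) ≤ lim_k μ {∀ i, b^k_i ≤ ..} = μ {∀ i, b_i < ..}`: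
`μ {∀ i, b_i < ..} = lim F (b^k) = ν {∀ i, b_i < ..}`. Then `path_ext` (a finite subset of `(-1, 1)` is the range of a strictly increasing `s`, `Finset.orderEmbOfFin`; for `S = ∅` both sides are `1`).
-/

open Set Filter MeasureTheory

namespace Pool.Agent.Helper49.PL

/-- Evaluation at a real time (projected to `[-1, 1]`). -/
noncomputable def ev (f : C(TI, ℝ)) (s : ℝ) : ℝ := f (Set.projIcc (-1) 1 (by norm_num) s)

theorem ev_cont (s : ℝ) : Continuous fun f : C(TI, ℝ) => ev f s := by
  unfold ev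
  fun_prop

private lemma dense24 (f g : C(TI, ℝ)) (r : ℝ)
    (h : ∀ q : ℚ, -1 < (q : ℝ) → (q : ℝ) < 1 → |ev f q - ev g q| ≤ r) (t : TI) :
    |f t - g t| ≤ r := by
  have hcl : IsClosed {s : ℝ | |ev f s - ev g s| ≤ r} := by
    apply isClosed_le _ continuous_const
    unfold ev
    fun_prop
  have h1 : Ioo (-1 : ℝ) 1 ∩ Set.range ((↑) : ℚ → ℝ) ⊆ {s : ℝ | |ev f s - ev g s| ≤ r} := by
    rintro s ⟨hs, q, rfl⟩
    exact h q hs.1 hs.2
  have h2 : Ioo (-1 : ℝ) 1 ⊆ {s : ℝ | |ev f s - ev g s| ≤ r} :=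
    (Dense.open_subset_closure_inter Rat.denseRange_cast isOpen_Ioo).trans
      (closure_minimal h1 hcl)
  have h3 : closure (Ioo (-1 : ℝ) 1) ⊆ {s : ℝ | |ev f s - ev g s| ≤ r} := closure_minimal h2 hcl
  rw [closure_Ioo (by norm_num)] at h3
  have h4 := h3 t.2
  simpa [ev] using h4

private lemma mIoi24 {δ : Type*} {m : MeasurableSpace δ} {f : δ → ℝ}
    (hf : ∀ x, MeasurableSet (f ⁻¹' Ioi x)) : Measurable f := measurable_of_Ioi hf

private lemma gen24 : borel C(TI, ℝ) = MeasurableSpace.generateFrom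
    {A : Set C(TI, ℝ) | ∃ (S : Finset ℝ) (b : ℝ → ℝ), (∀ s ∈ S, -1 < s ∧ s < 1) ∧
      A = {f | ∀ s ∈ S, b s < ev f s}} := by
  apply le_antisymm
  · apply MeasurableSpace.generateFrom_le
    intro U hU
    have hU' : IsOpen U := hU
    generalize hm : MeasurableSpace.generateFrom
      {A : Set C(TI, ℝ) | ∃ (S : Finset ℝ) (b : ℝ → ℝ), (∀ s ∈ S, -1 < s ∧ s < 1) ∧
        A = {f | ∀ s ∈ S, b s < ev f s}} = m
    have hev : ∀ s : ℝ, -1 < s → s < 1 → @Measurable _ _ m _ (fun f : C(TI, ℝ) => ev f s) := by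
      intro s h1 h2
      refine @mIoi24 _ m _ ?_
      intro a
      rw [← hm]
      apply MeasurableSpace.measurableSet_generateFrom
      refine ⟨{s}, fun _ => a, by simp [h1, h2], ?_⟩
      ext f
      simp
    have hball : ∀ (g : C(TI, ℝ)) (r : ℝ), 0 ≤ r → @MeasurableSet _ m (Metric.closedBall g r) := by
      intro g r hr
      have heq : Metric.closedBall g r = ⋂ q : {q : ℚ // -1 < (q : ℝ) ∧ (q : ℝ) < 1},
          (fun f : C(TI, ℝ) => ev f (q : ℚ)) ⁻¹' {x : ℝ | |x - ev g (q : ℚ)| ≤ r} := by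
        ext f
        simp only [Metric.mem_closedBall, Set.mem_iInter, Set.mem_preimage, Set.mem_ofPred_eq]
        constructor
        · intro h q
          have := (ContinuousMap.dist_le hr).1 h (Set.projIcc (-1) 1 (by norm_num) ((q : ℚ) : ℝ))
          rwa [Real.dist_eq] at this
        · intro h
          rw [ContinuousMap.dist_le hr]
          intro t
          rw [Real.dist_eq]
          exact dense24 f g r (fun q h1 h2 => h ⟨q, h1, h2⟩) t
      rw [heq]
      refine @MeasurableSet.iInter _ _ m _ _ ?_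
      intro q
      apply hev _ q.2.1 q.2.2
      exact measurableSet_le (by fun_prop) measurable_const
    have hr : ∀ x ∈ U, ∃ r : ℝ, 0 < r ∧ Metric.closedBall x r ⊆ U := by
      intro x hx
      exact Metric.nhds_basis_closedBall.mem_iff.1 (hU'.mem_nhds hx)
    choose! r hr0 hrU using hr
    obtain ⟨T, hTc, hT⟩ := TopologicalSpace.isOpen_iUnion_countable
      (fun x : U => Metric.ball (x : C(TI, ℝ)) (r x)) (fun x => Metric.isOpen_ball)
    have hUeq : U = ⋃ x ∈ T, Metric.closedBall (x : C(TI, ℝ)) (r x) := by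
      apply Set.Subset.antisymm
      · intro x hx
        have h1 : x ∈ ⋃ i : U, Metric.ball (i : C(TI, ℝ)) (r i) :=
          Set.mem_iUnion.2 ⟨⟨x, hx⟩, Metric.mem_ball_self (hr0 x hx)⟩
        rw [← hT] at h1
        simp only [Set.mem_iUnion] at h1 ⊢
        obtain ⟨i, hi, hxi⟩ := h1
        exact ⟨i, hi, Metric.ball_subset_closedBall hxi⟩
      · intro x hx
        simp only [Set.mem_iUnion] at hx
        obtain ⟨i, hi, hxi⟩ := hx
        exact hrU i i.2 hxi
    rw [hUeq]
    refine @MeasurableSet.biUnion _ _ m _ _ hTc ?_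
    intro x _
    exact hball _ _ (hr0 x x.2).le
  · apply MeasurableSpace.generateFrom_le
    rintro A ⟨S, b, hS, rfl⟩
    have hopen : IsOpen {f : C(TI, ℝ) | ∀ s ∈ S, b s < ev f s} := by
      have : {f : C(TI, ℝ) | ∀ s ∈ S, b s < ev f s} = ⋂ s ∈ S, {f | b s < ev f s} := by
        ext f
        simp
      rw [this]
      exact isOpen_biInter_finset fun s _ => isOpen_lt continuous_const (ev_cont s)
    exact MeasurableSpace.measurableSet_generateFrom hopen

private lemma pi24 : IsPiSystem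
    {A : Set C(TI, ℝ) | ∃ (S : Finset ℝ) (b : ℝ → ℝ), (∀ s ∈ S, -1 < s ∧ s < 1) ∧
      A = {f | ∀ s ∈ S, b s < ev f s}} := by
  rintro A ⟨S, b, hS, rfl⟩ B ⟨S', b', hS', rfl⟩ _
  refine ⟨S ∪ S', fun s => if s ∈ S then (if s ∈ S' then max (b s) (b' s) else b s) else b' s,
    ?_, ?_⟩
  · intro s hs
    rcases Finset.mem_union.1 hs with h | h
    · exact hS s h
    · exact hS' s h
  · ext f
    simp only [Set.mem_inter_iff, Set.mem_ofPred_eq, Finset.mem_union]
    constructor
    · rintro ⟨h1, h2⟩ s hs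
      by_cases hsS : s ∈ S
      · by_cases hsS' : s ∈ S'
        · simp only [hsS, hsS', if_true]
          exact max_lt (h1 s hsS) (h2 s hsS')
        · simp only [hsS, hsS', if_true, if_false]
          exact h1 s hsS
      · simp only [hsS, if_false]
        exact h2 s (hs.resolve_left hsS)
    · intro h
      constructor
      · intro s hs
        have := h s (Or.inl hs)
        simp only [hs, if_true] at this
        split_ifs at this
        · exact (le_max_left _ _).trans_lt this
        · exact this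
      · intro s hs
        have := h s (Or.inr hs)
        simp only [hs, if_true] at this
        split_ifs at this
        · exact (le_max_right _ _).trans_lt this
        · exact this

theorem path_ext {μ ν : Measure C(TI, ℝ)} [IsProbabilityMeasure μ] [IsProbabilityMeasure ν]
    (h : ∀ (S : Finset ℝ) (b : ℝ → ℝ), (∀ s ∈ S, -1 < s ∧ s < 1) →
      μ {f | ∀ s ∈ S, b s < ev f s} = ν {f | ∀ s ∈ S, b s < ev f s}) : μ = ν := by
  refine MeasureTheory.ext_of_generate_finite _ (BorelSpace.measurable_eq.trans gen24) pi24 ?_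
    (by simp)
  rintro A ⟨S, b, hS, rfl⟩
  exact h S b hS

private lemma seq24 (x : ℝ) : ∃ c : ℝ, 0 < c ∧ ∀ k : ℕ, x + c / (k + 1) ≠ 0 := by
  by_cases hx : 0 ≤ x
  · refine ⟨1, one_pos, fun k => ?_⟩
    have : (0 : ℝ) < 1 / (k + 1) := by positivity
    exact ne_of_gt (by linarith)
  · push Not at hx
    refine ⟨-x / 2, by linarith, fun k => ?_⟩
    have h1 : (-x / 2) / ((k : ℝ) + 1) ≤ -x / 2 := by
      apply div_le_self (by linarith)
      have : (0 : ℝ) ≤ k := by positivity
      linarith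
    exact ne_of_lt (by linarith)

private lemma lim24 {μ : Measure C(TI, ℝ)} [IsProbabilityMeasure μ] {p : ℕ} (s b c : Fin p → ℝ)
    (hc : ∀ i, 0 < c i) {G : ℕ → ℝ}
    (h : ∀ k : ℕ, μ.real {f | ∀ i, b i + c i / (k + 1) < ev f (s i)} ≤ G k ∧
      G k ≤ μ.real {f | ∀ i, b i + c i / (k + 1) ≤ ev f (s i)}) :
    Tendsto G atTop (nhds (μ.real {f | ∀ i, b i < ev f (s i)})) := by
  have hmono : ∀ i, ∀ k l : ℕ, k ≤ l → b i + c i / (l + 1) ≤ b i + c i / (k + 1) := by
    intro i k l hkl
    have h1 : (k : ℝ) ≤ l := by exact_mod_cast hkl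
    have h2 : c i / ((l : ℝ) + 1) ≤ c i / (k + 1) :=
      div_le_div_of_nonneg_left (hc i).le (by positivity) (by linarith)
    linarith
  have hlim : ∀ f : C(TI, ℝ), (∀ i, b i < ev f (s i)) →
      ∃ k : ℕ, ∀ i, b i + c i / (k + 1) < ev f (s i) := by
    intro f hf
    have h1 : ∀ i, ∀ᶠ k : ℕ in atTop, b i + c i / (k + 1) < ev f (s i) := by
      intro i
      have h2 : Tendsto (fun k : ℕ => b i + c i / ((k : ℝ) + 1)) atTop (nhds (b i + 0)) := by
        apply Tendsto.const_add
        have h3 := (tendsto_one_div_add_atTop_nhds_zero_nat (𝕜 := ℝ)).const_mul (c i)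
        simpa [div_eq_mul_inv] using h3
      rw [add_zero] at h2
      exact h2.eventually_lt_const (hf i)
    exact (eventually_all.2 h1).exists
  have hA : (⋃ k : ℕ, {f : C(TI, ℝ) | ∀ i, b i + c i / (k + 1) < ev f (s i)}) =
      {f | ∀ i, b i < ev f (s i)} := by
    ext f
    simp only [Set.mem_iUnion, Set.mem_ofPred_eq]
    constructor
    · rintro ⟨k, hk⟩ i
      have : 0 < c i / ((k : ℝ) + 1) := div_pos (hc i) (by positivity)
      linarith [hk i]
    · exact hlim f
  have hB : (⋃ k : ℕ, {f : C(TI, ℝ) | ∀ i, b i + c i / (k + 1) ≤ ev f (s i)}) =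
      {f | ∀ i, b i < ev f (s i)} := by
    ext f
    simp only [Set.mem_iUnion, Set.mem_ofPred_eq]
    constructor
    · rintro ⟨k, hk⟩ i
      have : 0 < c i / ((k : ℝ) + 1) := div_pos (hc i) (by positivity)
      linarith [hk i]
    · intro hf
      obtain ⟨k, hk⟩ := hlim f hf
      exact ⟨k, fun i => (hk i).le⟩
  have hA1 : Tendsto (fun k : ℕ => μ.real {f : C(TI, ℝ) | ∀ i, b i + c i / (k + 1) < ev f (s i)})
      atTop (nhds (μ.real {f | ∀ i, b i < ev f (s i)})) := by
    rw [← hA]
    refine (ENNReal.tendsto_toReal (measure_ne_top _ _)).comp (tendsto_measure_iUnion_atTop ?_)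
    intro k l hkl f hf i
    exact (hmono i k l hkl).trans_lt (hf i)
  have hB1 : Tendsto (fun k : ℕ => μ.real {f : C(TI, ℝ) | ∀ i, b i + c i / (k + 1) ≤ ev f (s i)})
      atTop (nhds (μ.real {f | ∀ i, b i < ev f (s i)})) := by
    rw [← hB]
    refine (ENNReal.tendsto_toReal (measure_ne_top _ _)).comp (tendsto_measure_iUnion_atTop ?_)
    intro k l hkl f hf i
    exact (hmono i k l hkl).trans (hf i)
  exact tendsto_of_tendsto_of_tendsto_of_le_of_le hA1 hB1 (fun k => (h k).1) (fun k => (h k).2)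

theorem fdd_ext {μ ν : Measure C(TI, ℝ)} [IsProbabilityMeasure μ] [IsProbabilityMeasure ν]
    {F : ∀ p : ℕ, (Fin p → ℝ) → (Fin p → ℝ) → ℝ}
    (hμ : ∀ p : ℕ, 1 ≤ p → ∀ s b : Fin p → ℝ, StrictMono s → (∀ i, -1 < s i ∧ s i < 1) → (∀ i, b i ≠ 0) →
      μ.real {f | ∀ i, b i < ev f (s i)} ≤ F p s b ∧ F p s b ≤ μ.real {f | ∀ i, b i ≤ ev f (s i)})
    (hν : ∀ p : ℕ, 1 ≤ p → ∀ s b : Fin p → ℝ, StrictMono s → (∀ i, -1 < s i ∧ s i < 1) → (∀ i, b i ≠ 0) →
      ν.real {f | ∀ i, b i < ev f (s i)} ≤ F p s b ∧ F p s b ≤ ν.real {f | ∀ i, b i ≤ ev f (s i)}) :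
    μ = ν := by
  apply path_ext
  intro S b hS
  rcases S.eq_empty_or_nonempty with rfl | hne
  · simp
  have hp : 1 ≤ S.card := hne.card_pos
  set e := S.orderEmbOfFin rfl with he
  have hmem : ∀ i, e i ∈ S := fun i => S.orderEmbOfFin_mem rfl i
  have hset : {f : C(TI, ℝ) | ∀ s ∈ S, b s < ev f s} = {f | ∀ i, b (e i) < ev f (e i)} := by
    ext f
    simp only [Set.mem_ofPred_eq]
    constructor
    · intro h i
      exact h _ (hmem i)
    · intro h s hs
      have : s ∈ Set.range (S.orderEmbOfFin rfl) := by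
        rw [Finset.range_orderEmbOfFin]
        exact hs
      obtain ⟨i, rfl⟩ := this
      exact h i
  rw [hset]
  choose c hc0 hc using seq24
  have hbd : ∀ i, -1 < e i ∧ e i < 1 := fun i => hS _ (hmem i)
  have h1 : Tendsto (fun k : ℕ => F S.card (fun i => e i) (fun i => b (e i) + c (b (e i)) / (k + 1)))
      atTop (nhds (μ.real {f | ∀ i, b (e i) < ev f (e i)})) :=
    lim24 (fun i => e i) (fun i => b (e i)) (fun i => c (b (e i))) (fun i => hc0 _)
      (fun k => hμ S.card hp (fun i => e i) _ e.strictMono hbd (fun i => hc _ k))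
  have h2 : Tendsto (fun k : ℕ => F S.card (fun i => e i) (fun i => b (e i) + c (b (e i)) / (k + 1)))
      atTop (nhds (ν.real {f | ∀ i, b (e i) < ev f (e i)})) :=
    lim24 (fun i => e i) (fun i => b (e i)) (fun i => c (b (e i))) (fun i => hc0 _)
      (fun k => hν S.card hp (fun i => e i) _ e.strictMono hbd (fun i => hc _ k))
  have h3 := tendsto_nhds_unique h1 h2
  exact (ENNReal.toReal_eq_toReal_iff' (measure_ne_top _ _) (measure_ne_top _ _)).1 h3

end Pool.Agent.Helper49.PL
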