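import Pool.Agent.Helper49.PL.Def

/-!
Block PL-A: a tightness criterion for laws of continuous paths (only Mathlib).

Paper proof of `tight_of_mod`. `isTightMeasureSet_iff_exists_isCompact_measure_compl_le`. Let `t > 0`. For every `k ≥ 1` let `d k > 0`, `N k` be such that `(ν n).real {∃ s s', |s - s'| ≤ d k ∧ 1/k < |f s - f s'|} ≤ t 2^(-k-2)` for `n ≥ N k`; for the finitely many `n < N k` the same
holds with a smaller `d k`: for a single probability measure `ν n` the events `{∃ s s', |s - s'| ≤ d ∧ 1/k < |f s - f s'|}` decrease to the empty set as `d → 0` (every `f` is uniformly continuous), and they are measurable: the set is open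
(or `{f | ∀ s s', |s - s'| ≤ d → |f s - f s'| ≤ 1/k}` is closed, as `f ↦ f s` is continuous). In the same way `A` with `(ν n).real {A < |f (-1)|} ≤ t/4` for all `n`. Let `K = {f : |f (-1)| ≤ A, ∀ k ≥ 1, ∀ s s', |s - s'| ≤ d k → |f s - f s'| ≤ 1/k}`. `K` is closed, its elements are uniformly bounded (`|f s| ≤ A + 1 + 2/d 1`) and equicontinuous, so
it is compact by the theorem of Arzela and Ascoli (`BoundedContinuousFunction.arzela_ascoli` through `BoundedContinuousFunction` = `ContinuousMap` on a compact space, `ContinuousMap.equivBoundedOfCompact`/`isometryEquivBoundedOfCompact`; or `ArzelaAscoli.isCompact_of_equicontinuous`). `ν n (Kᶜ) ≤ t/4 + ∑_k t 2^(-k-2) ≤ t`.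
-/

open Set Filter MeasureTheory

namespace Pool.Agent.Helper49.PL

/-- The left end of the time interval. -/
def lft : TI := ⟨-1, by norm_num, by norm_num⟩

/-- the set of paths with a large oscillation at scale `d` -/
private def bad (ε d : ℝ) : Set C(TI, ℝ) :=
  {f | ∃ s s' : TI, |(s : ℝ) - s'| ≤ d ∧ ε < |f s - f s'|}

private theorem isOpen_bad (ε d : ℝ) : IsOpen (bad ε d) := by
  have h : bad ε d = ⋃ (s : TI) (s' : TI) (_ : |(s : ℝ) - s'| ≤ d),
      {f : C(TI, ℝ) | ε < |f s - f s'|} := by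
    ext f
    simp only [bad, mem_setOf_eq, mem_iUnion, exists_prop]
  rw [h]
  refine isOpen_iUnion fun s => isOpen_iUnion fun s' => isOpen_iUnion fun _ => ?_
  exact isOpen_lt continuous_const
    ((ContinuousEvalConst.continuous_eval_const s).sub
      (ContinuousEvalConst.continuous_eval_const s')).abs

private theorem bad_mono {ε d d' : ℝ} (h : d ≤ d') : bad ε d ⊆ bad ε d' := by
  rintro f ⟨s, s', h1, h2⟩
  exact ⟨s, s', h1.trans h, h2⟩

private theorem bad_single (μ : Measure C(TI, ℝ)) [IsProbabilityMeasure μ] {ε t : ℝ}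
    (hε : 0 < ε) (ht : 0 < t) : ∃ d : ℝ, 0 < d ∧ μ.real (bad ε d) ≤ t := by
  have hanti : Antitone fun m : ℕ => bad ε (1 / ((m : ℝ) + 1)) := by
    intro a b hab
    apply bad_mono
    exact Nat.one_div_le_one_div hab
  have hempty : ⋂ m : ℕ, bad ε (1 / ((m : ℝ) + 1)) = ∅ := by
    ext f
    simp only [mem_iInter, mem_empty_iff_false, iff_false]
    intro h
    have huc : UniformContinuous f := CompactSpace.uniformContinuous_of_continuous f.continuous
    obtain ⟨δ, hδ, hδ2⟩ := Metric.uniformContinuous_iff.1 huc ε hε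
    obtain ⟨m, hm⟩ := exists_nat_one_div_lt hδ
    obtain ⟨s, s', h1, h2⟩ := h m
    have h3 : dist s s' < δ := by
      rw [Subtype.dist_eq, Real.dist_eq]
      exact lt_of_le_of_lt h1 hm
    have h4 := hδ2 h3
    rw [Real.dist_eq] at h4
    linarith
  have hlim := tendsto_measure_iInter_atTop (μ := μ)
    (fun m : ℕ => (isOpen_bad ε (1 / ((m : ℝ) + 1))).measurableSet.nullMeasurableSet) hanti
    ⟨0, measure_ne_top _ _⟩
  rw [hempty, measure_empty] at hlim
  have hev := hlim.eventually (gt_mem_nhds (ENNReal.ofReal_pos.2 ht))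
  obtain ⟨m, hm⟩ := hev.exists
  refine ⟨1 / ((m : ℝ) + 1), Nat.one_div_pos_of_nat, ?_⟩
  exact ENNReal.toReal_le_of_le_ofReal ht.le hm.le

private theorem big_single (μ : Measure C(TI, ℝ)) [IsProbabilityMeasure μ] {t : ℝ}
    (ht : 0 < t) : ∃ A : ℝ, μ.real {f | A < |f lft|} ≤ t := by
  have hopen : ∀ a : ℝ, IsOpen {f : C(TI, ℝ) | a < |f lft|} := fun a =>
    isOpen_lt continuous_const (ContinuousEvalConst.continuous_eval_const lft).abs
  have hanti : Antitone fun m : ℕ => {f : C(TI, ℝ) | (m : ℝ) < |f lft|} := by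
    intro a b hab f hf
    have h1 : (a : ℝ) ≤ b := by exact_mod_cast hab
    exact lt_of_le_of_lt h1 hf
  have hempty : ⋂ m : ℕ, {f : C(TI, ℝ) | (m : ℝ) < |f lft|} = ∅ := by
    ext f
    simp only [mem_iInter, mem_setOf_eq, mem_empty_iff_false, iff_false]
    intro h
    obtain ⟨m, hm⟩ := exists_nat_gt |f lft|
    exact absurd (h m) (not_lt.2 hm.le)
  have hlim := tendsto_measure_iInter_atTop (μ := μ)
    (fun m : ℕ => (hopen m).measurableSet.nullMeasurableSet) hanti ⟨0, measure_ne_top _ _⟩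
  rw [hempty, measure_empty] at hlim
  have hev := hlim.eventually (gt_mem_nhds (ENNReal.ofReal_pos.2 ht))
  obtain ⟨m, hm⟩ := hev.exists
  exact ⟨m, ENNReal.toReal_le_of_le_ofReal ht.le hm.le⟩

private theorem bad_all {ν : ℕ → Measure C(TI, ℝ)} [∀ n, IsProbabilityMeasure (ν n)]
    (h2 : ∀ ε t : ℝ, 0 < ε → 0 < t → ∃ (d : ℝ) (n₀ : ℕ), 0 < d ∧ ∀ n, n₀ ≤ n →
      (ν n).real (bad ε d) ≤ t) {ε t : ℝ} (hε : 0 < ε) (ht : 0 < t) :
    ∃ d : ℝ, 0 < d ∧ ∀ n, (ν n).real (bad ε d) ≤ t := by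
  obtain ⟨d, n₀, hd, hn⟩ := h2 ε t hε ht
  have key : ∀ m : ℕ, ∃ e : ℝ, 0 < e ∧ ∀ n, n < m → (ν n).real (bad ε e) ≤ t := by
    intro m
    induction m with
    | zero => exact ⟨1, one_pos, fun n h => absurd h (Nat.not_lt_zero n)⟩
    | succ m ih =>
      obtain ⟨e, he, h⟩ := ih
      obtain ⟨e', he', h'⟩ := bad_single (ν m) hε ht
      refine ⟨min e e', lt_min he he', fun n hnm => ?_⟩
      rcases Nat.lt_succ_iff_lt_or_eq.1 hnm with h3 | h3
      · exact (measureReal_mono (bad_mono (min_le_left _ _))).trans (h n h3)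
      · subst h3
        exact (measureReal_mono (bad_mono (min_le_right _ _))).trans h'
  obtain ⟨e, he, h⟩ := key n₀
  refine ⟨min d e, lt_min hd he, fun n => ?_⟩
  rcases lt_or_ge n n₀ with h3 | h3
  · exact (measureReal_mono (bad_mono (min_le_right _ _))).trans (h n h3)
  · exact (measureReal_mono (bad_mono (min_le_left _ _))).trans (hn n h3)

private theorem big_all {ν : ℕ → Measure C(TI, ℝ)} [∀ n, IsProbabilityMeasure (ν n)]
    (h1 : ∀ t : ℝ, 0 < t → ∃ (A : ℝ) (n₀ : ℕ), ∀ n, n₀ ≤ n → (ν n).real {f | A < |f lft|} ≤ t)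
    {t : ℝ} (ht : 0 < t) : ∃ A : ℝ, ∀ n, (ν n).real {f | A < |f lft|} ≤ t := by
  have hmono : ∀ {a b : ℝ}, a ≤ b → {f : C(TI, ℝ) | b < |f lft|} ⊆ {f | a < |f lft|} :=
    fun hab f hf => lt_of_le_of_lt hab hf
  obtain ⟨A, n₀, hn⟩ := h1 t ht
  have key : ∀ m : ℕ, ∃ e : ℝ, ∀ n, n < m → (ν n).real {f | e < |f lft|} ≤ t := by
    intro m
    induction m with
    | zero => exact ⟨1, fun n h => absurd h (Nat.not_lt_zero n)⟩
    | succ m ih =>
      obtain ⟨e, h⟩ := ih
      obtain ⟨e', h'⟩ := big_single (ν m) ht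
      refine ⟨max e e', fun n hnm => ?_⟩
      rcases Nat.lt_succ_iff_lt_or_eq.1 hnm with h3 | h3
      · exact (measureReal_mono (hmono (le_max_left _ _))).trans (h n h3)
      · subst h3
        exact (measureReal_mono (hmono (le_max_right _ _))).trans h'
  obtain ⟨e, h⟩ := key n₀
  refine ⟨max A e, fun n => ?_⟩
  rcases lt_or_ge n n₀ with h3 | h3
  · exact (measureReal_mono (hmono (le_max_right _ _))).trans (h n h3)
  · exact (measureReal_mono (hmono (le_max_left _ _))).trans (hn n h3)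

private theorem bounded_of {f : C(TI, ℝ)} {A d : ℝ} (hd : 0 < d) (hA : |f lft| ≤ A)
    (hf : f ∉ bad 1 d) (s : TI) : |f s| ≤ A + (⌈2 / d⌉₊ + 1 : ℕ) := by
  set N : ℕ := ⌈2 / d⌉₊ + 1 with hN
  have hN0 : (0 : ℝ) < N := by positivity
  have hNd : 2 / (N : ℝ) ≤ d := by
    rw [div_le_iff₀ hN0, ← div_le_iff₀' hd]
    refine (Nat.le_ceil _).trans ?_
    exact_mod_cast Nat.le_succ _
  have hs1 : (0 : ℝ) ≤ (s : ℝ) + 1 := by linarith [s.2.1]
  have hs2 : (s : ℝ) + 1 ≤ 2 := by linarith [s.2.2]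
  have hmem : ∀ j : ℕ, j ≤ N → (-1 : ℝ) + ((s : ℝ) + 1) * (j / N) ∈ Set.Icc (-1 : ℝ) 1 := by
    intro j hj
    have h1 : (j : ℝ) / N ≤ 1 := by
      rw [div_le_one hN0]
      exact_mod_cast hj
    have h2 : (0 : ℝ) ≤ (j : ℝ) / N := by positivity
    constructor
    · nlinarith
    · nlinarith
  have key : ∀ j : ℕ, ∀ hj : j ≤ N, |f ⟨_, hmem j hj⟩| ≤ A + j := by
    intro j
    induction j with
    | zero =>
      intro hj
      have : (⟨_, hmem 0 hj⟩ : TI) = lft := by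
        apply Subtype.ext
        simp [lft]
      rw [this]
      simpa using hA
    | succ j ih =>
      intro hj
      have hj' : j ≤ N := by omega
      have h1 := ih hj'
      have h2 : |f ⟨_, hmem (j + 1) hj⟩ - f ⟨_, hmem j hj'⟩| ≤ 1 := by
        by_contra hcon
        push Not at hcon
        apply hf
        refine ⟨_, _, ?_, hcon⟩
        have h3 : ((-1 : ℝ) + ((s : ℝ) + 1) * (((j + 1 : ℕ) : ℝ) / N))
            - ((-1 : ℝ) + ((s : ℝ) + 1) * ((j : ℝ) / N)) = ((s : ℝ) + 1) * (1 / N) := by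
          push_cast
          ring
        show |((-1 : ℝ) + ((s : ℝ) + 1) * (((j + 1 : ℕ) : ℝ) / N))
            - ((-1 : ℝ) + ((s : ℝ) + 1) * ((j : ℝ) / N))| ≤ d
        rw [h3, abs_of_nonneg (by positivity)]
        refine le_trans ?_ hNd
        rw [mul_one_div]
        gcongr
      have h4 := abs_sub_abs_le_abs_sub (f ⟨_, hmem (j + 1) hj⟩) (f ⟨_, hmem j hj'⟩)
      have h5 : |f ⟨_, hmem (j + 1) hj⟩| ≤ A + j + 1 := by linarith
      refine h5.trans ?_
      push_cast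
      linarith
  have h5 := key N le_rfl
  have h6 : (⟨_, hmem N le_rfl⟩ : TI) = s := by
    apply Subtype.ext
    show (-1 : ℝ) + ((s : ℝ) + 1) * ((N : ℝ) / N) = s
    rw [div_self hN0.ne']
    ring
  rw [h6] at h5
  exact h5

private theorem compact_of (A : ℝ) (d : ℕ → ℝ) (hd : ∀ k, 0 < d k) :
    IsCompact {f : C(TI, ℝ) | |f lft| ≤ A ∧ ∀ k : ℕ, f ∉ bad (1 / ((k : ℝ) + 1)) (d k)} := by
  set K : Set C(TI, ℝ) :=
    {f : C(TI, ℝ) | |f lft| ≤ A ∧ ∀ k : ℕ, f ∉ bad (1 / ((k : ℝ) + 1)) (d k)} with hK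
  have hclosed : IsClosed K := by
    have h : K = {f : C(TI, ℝ) | |f lft| ≤ A} ∩ ⋂ k : ℕ, (bad (1 / ((k : ℝ) + 1)) (d k))ᶜ := by
      ext f
      simp only [hK, mem_setOf_eq, mem_inter_iff, mem_iInter, mem_compl_iff]
    rw [h]
    refine IsClosed.inter ?_ (isClosed_iInter fun k => (isOpen_bad _ _).isClosed_compl)
    exact isClosed_le (ContinuousEvalConst.continuous_eval_const lft).abs continuous_const
  let e := ContinuousMap.isometryEquivBoundedOfCompact TI ℝ
  have hcl2 : IsClosed (e.symm ⁻¹' K) := hclosed.preimage e.symm.continuous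
  have hbd : ∀ f ∈ K, ∀ s : TI, |f s| ≤ A + (⌈2 / d 0⌉₊ + 1 : ℕ) := by
    intro f hf s
    refine bounded_of (hd 0) hf.1 ?_ s
    have := hf.2 0
    simpa using this
  have hcomp : IsCompact (e.symm ⁻¹' K) := by
    refine BoundedContinuousFunction.arzela_ascoli₂
      (Set.Icc (-(A + (⌈2 / d 0⌉₊ + 1 : ℕ))) (A + (⌈2 / d 0⌉₊ + 1 : ℕ))) isCompact_Icc _ hcl2 ?_ ?_
    · intro f x hf
      have := hbd (e.symm f) hf x
      exact abs_le.1 this
    · intro x
      rw [Metric.equicontinuousAt_iff]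
      intro ε hε
      obtain ⟨k, hk⟩ := exists_nat_one_div_lt hε
      refine ⟨d k, hd k, fun y hy f => ?_⟩
      have h1 := f.2
      have h2 : e.symm (f : BoundedContinuousFunction TI ℝ) ∉ bad (1 / ((k : ℝ) + 1)) (d k) :=
        h1.2 k
      rw [Real.dist_eq]
      by_contra hcon
      push Not at hcon
      apply h2
      refine ⟨x, y, ?_, lt_of_lt_of_le hk hcon⟩
      have h3 := hy.le
      rwa [Subtype.dist_eq, Real.dist_eq, abs_sub_comm] at h3
  have himg : K = e.symm '' (e.symm ⁻¹' K) := (Set.image_preimage_eq K e.symm.surjective).symm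
  rw [himg]
  exact hcomp.image e.symm.continuous

theorem tight_of_mod {ν : ℕ → Measure C(TI, ℝ)} [∀ n, IsProbabilityMeasure (ν n)]
    (h1 : ∀ t : ℝ, 0 < t → ∃ (A : ℝ) (n₀ : ℕ), ∀ n, n₀ ≤ n → (ν n).real {f | A < |f lft|} ≤ t)
    (h2 : ∀ ε t : ℝ, 0 < ε → 0 < t → ∃ (d : ℝ) (n₀ : ℕ), 0 < d ∧ ∀ n, n₀ ≤ n →
      (ν n).real {f | ∃ s s' : TI, |(s : ℝ) - s'| ≤ d ∧ ε < |f s - f s'|} ≤ t) :
    IsTightMeasureSet (Set.range ν) := by
  rw [isTightMeasureSet_iff_exists_isCompact_measure_compl_le]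
  intro ε hε
  obtain ⟨t, ht0, htε⟩ := ENNReal.lt_iff_exists_nnreal_btwn.1 hε
  have ht : (0 : ℝ) < t := by exact_mod_cast ht0
  obtain ⟨A, hA⟩ := big_all h1 (show (0 : ℝ) < (t : ℝ) / 2 by positivity)
  have hex : ∀ k : ℕ, ∃ d : ℝ, 0 < d ∧ ∀ n,
      (ν n).real (bad (1 / ((k : ℝ) + 1)) d) ≤ (t : ℝ) / 2 / 2 / 2 ^ k := fun k =>
    bad_all h2 Nat.one_div_pos_of_nat (by positivity)
  choose d hd hd2 using hex
  refine ⟨_, compact_of A d hd, ?_⟩
  rintro _ ⟨n, rfl⟩
  have hsub : {f : C(TI, ℝ) | |f lft| ≤ A ∧ ∀ k : ℕ, f ∉ bad (1 / ((k : ℝ) + 1)) (d k)}ᶜ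
      ⊆ {f | A < |f lft|} ∪ ⋃ k : ℕ, bad (1 / ((k : ℝ) + 1)) (d k) := by
    intro f hf
    simp only [mem_compl_iff, mem_setOf_eq, not_and, not_forall, not_not] at hf
    by_cases hfa : |f lft| ≤ A
    · obtain ⟨k, hk⟩ := hf hfa
      exact Or.inr (mem_iUnion.2 ⟨k, hk⟩)
    · exact Or.inl (not_le.1 hfa)
  refine le_trans (measure_mono hsub) ?_
  refine le_trans (measure_union_le _ _) ?_
  have e1 : (ν n) {f | A < |f lft|} ≤ ENNReal.ofReal ((t : ℝ) / 2) := by
    rw [ENNReal.le_ofReal_iff_toReal_le (measure_ne_top _ _) (by positivity)]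
    exact hA n
  have e2 : (ν n) (⋃ k : ℕ, bad (1 / ((k : ℝ) + 1)) (d k)) ≤ ENNReal.ofReal ((t : ℝ) / 2) := by
    refine le_trans (measure_iUnion_le _) ?_
    have e3 : ∀ k : ℕ, (ν n) (bad (1 / ((k : ℝ) + 1)) (d k))
        ≤ ENNReal.ofReal ((t : ℝ) / 2 / 2 / 2 ^ k) := by
      intro k
      rw [ENNReal.le_ofReal_iff_toReal_le (measure_ne_top _ _) (by positivity)]
      exact hd2 k n
    refine le_trans (ENNReal.tsum_le_tsum e3) ?_
    rw [← ENNReal.ofReal_tsum_of_nonneg (fun k => by positivity) (summable_geometric_two' _),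
      tsum_geometric_two']
  refine le_trans (add_le_add e1 e2) ?_
  rw [← ENNReal.ofReal_add (by positivity) (by positivity), add_halves]
  rw [ENNReal.ofReal_coe_nnreal]
  exact htε.le

end Pool.Agent.Helper49.PL
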