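import Pool.Agent.Helper49.PL.Def
import Pool.Agent.Helper49.RD.Side
import Pool.Agent.Helper49.DX.End

/-!
Block PL-H: the height function.

Paper proofs. `ω ∈ confs (box n n) (eta 0)`, `1 ≤ n`, `|x| ≤ n`. The set `S = {k : Interface n ω ((x, k), false)}` is nonempty: `gg n n ω (x, -n) = 1` (`gg_low`, `DL/Contour.lean`) and `gg_above` (`RD/Side.lean`) with `c = -n`; its elements satisfy `-n ≤ k ≤ n` (`broken_pos65` in `DX/End.lean`, private, copy; the
interface bonds are broken). So `S` has a largest element `k₀` and `ht n ω x = k₀ + 1/2` (`IsGreatest.csSup_eq`), and `Above n x K ω ↔ K ≤ k₀`.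
* `ht_iff`: from this. `ht_ge`: `r ≤ k₀ + 1/2 ↔ ⌈r - 1/2⌉ ≤ k₀` (`Int.ceil_le`). `ht_abs`: `-n ≤ k₀ ≤ n`.
* `ht_low`: if `ht n ω x ≤ r` then there is an interface bond of the column at a height `≤ r - 1/2` (`k₀`), so `Beneath n x K ω` for `K ≤ -(k₀)`, e.g. `K = ⌊1/2 - r⌋`.
-/

namespace Pool.Agent.Helper49.PL

open Pool.Agent.Helper49.DL Pool.Agent.Helper49.DX

private theorem broken_posPLH {N : ℤ} {ω : Cfg}
    (hω : ω ∈ confs (box N N) (eta 0)) {b : Bond} (hb : Broken ω b) :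
    (-N - 1 ≤ b.1.1 ∧ b.1.1 ≤ N ∧ -N ≤ b.1.2 ∧ b.1.2 ≤ N) ∨ b.1.2 = 0 := by
  obtain ⟨⟨x, y⟩, d⟩ := b
  rw [mem_confs] at hω
  by_cases h1 : (x, y) ∈ box N N
  · rw [mem_box] at h1
    simp only at h1 ⊢
    left
    omega
  by_cases h2 : bend ((x, y), d) ∈ box N N
  · rw [mem_box] at h2
    left
    cases d
    · simp only [bend, e2, Bool.false_eq_true, if_false, Prod.mk_add_mk, add_zero] at h2 ⊢
      omega
    · simp only [bend, e1, if_true, Prod.mk_add_mk, add_zero] at h2 ⊢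
      omega
  right
  by_contra hy
  apply hb
  rw [hω _ h1, hω _ h2]
  simp only at hy
  cases d
  · simp only [bend, e2, Bool.false_eq_true, if_false, Prod.mk_add_mk, eta, decide_eq_decide]
    omega
  · simp only [bend, e1, if_true, Prod.mk_add_mk, add_zero, eta]

section

variable {n : ℕ} (hn : 1 ≤ n) {ω : Cfg} (hω : ω ∈ confs (box n n) (eta 0)) {x : ℤ} (hx : |x| ≤ n)

include hn hω hx

private theorem exTop : ∃ k₀ : ℤ, Interface n ω ((x, k₀), false) ∧ -(n : ℤ) ≤ k₀ ∧ k₀ ≤ n ∧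
    (∀ k, Interface n ω ((x, k), false) → k ≤ k₀) ∧ ht n ω x = k₀ + 1 / 2 := by
  classical
  have hbd : ∀ k, Interface n ω ((x, k), false) → -(n : ℤ) ≤ k ∧ k ≤ n := by
    intro k hk
    have g := broken_posPLH hω hk.1
    simp only at g
    omega
  have hg : gg n n ω (x, -(n : ℤ)) = 1 := by
    refine gg_low hω (by omega) (by omega) ?_ ?_
    · rw [mem_box]
      simp only
      omega
    · simp only
      omega
  obtain ⟨y, hy, hI⟩ := Pool.Agent.Helper49.RD.gg_above hg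
  set S : Finset ℤ := (Finset.Icc (-(n : ℤ)) n).filter fun k => Interface n ω ((x, k), false) with hS
  have hne : S.Nonempty := ⟨y, by
    rw [hS, Finset.mem_filter, Finset.mem_Icc]
    exact ⟨hbd y hI, hI⟩⟩
  have hm := Finset.max'_mem S hne
  set k₀ := S.max' hne with hk₀
  rw [hS, Finset.mem_filter, Finset.mem_Icc] at hm
  have hmax : ∀ k, Interface n ω ((x, k), false) → k ≤ k₀ := by
    intro k hk
    refine Finset.le_max' S k ?_
    rw [hS, Finset.mem_filter, Finset.mem_Icc]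
    exact ⟨hbd k hk, hk⟩
  refine ⟨k₀, hm.2, hm.1.1, hm.1.2, hmax, ?_⟩
  refine IsGreatest.csSup_eq ⟨⟨k₀, hm.2, rfl⟩, ?_⟩
  rintro z ⟨k, hk, rfl⟩
  have : (k : ℝ) ≤ k₀ := by exact_mod_cast hmax k hk
  linarith

theorem ht_iff (K : ℤ) : Above n x K ω ↔ (K : ℝ) + 1 / 2 ≤ ht n ω x := by
  obtain ⟨k₀, hI, _, _, hmax, hh⟩ := exTop hn hω hx
  rw [hh]
  constructor
  · rintro ⟨y, hy, hIy⟩
    have : (K : ℝ) ≤ k₀ := by exact_mod_cast hy.trans (hmax y hIy)
    linarith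
  · intro h
    refine ⟨k₀, ?_, hI⟩
    have : (K : ℝ) ≤ k₀ := by linarith
    exact_mod_cast this

theorem ht_ge (r : ℝ) : r ≤ ht n ω x ↔ Above n x ⌈r - 1 / 2⌉ ω := by
  obtain ⟨k₀, hI, _, _, hmax, hh⟩ := exTop hn hω hx
  rw [hh]
  constructor
  · intro h
    refine ⟨k₀, ?_, hI⟩
    rw [Int.ceil_le]
    linarith
  · rintro ⟨y, hy, hIy⟩
    have h1 := hy.trans (hmax y hIy)
    rw [Int.ceil_le] at h1
    linarith

theorem ht_abs : |ht n ω x| ≤ n + 1 / 2 := by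
  obtain ⟨k₀, _, h1, h2, _, hh⟩ := exTop hn hω hx
  have g1 : -(n : ℝ) ≤ k₀ := by exact_mod_cast h1
  have g2 : (k₀ : ℝ) ≤ n := by exact_mod_cast h2
  rw [hh, abs_le]
  constructor <;> linarith

theorem ht_low {r : ℝ} (hr : ht n ω x ≤ r) : Beneath n x ⌊1 / 2 - r⌋ ω := by
  obtain ⟨k₀, hI, _, _, _, hh⟩ := exTop hn hω hx
  refine ⟨k₀, ?_, hI⟩
  rw [le_neg, Int.floor_le_iff]
  push_cast
  rw [hh] at hr
  linarith

end

end Pool.Agent.Helper49.PL
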