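import Pool.Agent.Helper49.RD.Fdd

/-!
Block PL-B: the limiting distribution functions are continuous in the thresholds (pure analysis).

Paper proofs. Lists of times and multipliers with `|φ| ≤ 1` measurable.
* `bl_bdd`: `Bl g s r` is bounded on `[0, ∞)` (`bl_cz`), by a constant depending on the times only: for `r = []` by `sup rho`, and `|Tv v f| ≤ sup |f|` (`tv_le`). So `|Bl g s r y| ≤ B` with `B = B (g, times)` for all multipliers.
* `bl_close`: if `r`, `r'` have the same times and `φ_i - φ'_i` vanishes off an interval `[a_i, a_i + η]` on `(0, ∞)` (depending on `i`) then `|Bl g s r y - Bl g s r' y| ≤ C η` for `y ≥ 0`, `C` depending on the times only: induction on the list: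
  `Tv v (φ U) - Tv v (φ' U') = Tv v ((φ - φ') U) + Tv v (φ' (U - U'))`, `tv_small`, `tv_le`, `tv_lin`. The same for `Ml` with `la_small`, `la_le`, `la_lin`.
* `fe_cont`: `ind (b + e) - ind b` is the indicator of `[b, b + e)` up to sign (`[b + e, b)` for `e < 0`), of length `|e|`; so `|Fe (e) - Fe (0)| ≤ C |e|`. For `z ↦ ind (b + e) (-z)` the same.
-/

open Filter

namespace Pool.Agent.Helper49.PL

open Pool.Agent.Helper49.RD

private noncomputable def evl82 (T : List (ℝ × (ℝ → ℝ → ℝ))) (e : ℝ) : List (ℝ × (ℝ → ℝ)) :=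
  T.map (fun a => (a.1, a.2 e))

private def Ok82 (f : ℝ → ℝ → ℝ) : Prop :=
  (∀ e, Measurable (f e) ∧ ∀ z, |f e z| ≤ 1) ∧
    ∀ᵐ z : ℝ, Tendsto (fun e : ℝ => f e z) (nhds 0) (nhds (f 0 z))

private theorem gauss82 {v : ℝ} (hv : 0 < v) :
    MeasureTheory.Integrable (fun x : ℝ => Real.exp (-(x ^ 2 / (2 * v)))) := by
  have h := integrable_exp_neg_mul_sq (b := 1 / (2 * v)) (by positivity)
  refine h.congr (Eventually.of_forall fun x => ?_)
  simp only
  congr 1
  ring

private theorem hkint82 {v : ℝ} (hv : 0 < v) (y : ℝ) : MeasureTheory.Integrable (fun z => hk v y z) := by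
  unfold hk
  exact (((gauss82 hv).comp_sub_left y).sub ((gauss82 hv).comp_add_left y)).div_const _

private theorem rhoint82 {v : ℝ} (hv : 0 < v) : MeasureTheory.Integrable (fun z => rho v z) := by
  unfold rho
  have h := integrable_mul_exp_neg_mul_sq (b := 1 / (2 * v)) (by positivity)
  refine MeasureTheory.Integrable.div_const (h.congr (Eventually.of_forall fun x => ?_)) _
  simp only
  congr 2
  ring

private theorem hkmeas82 (v y : ℝ) : Measurable (fun z => hk v y z) := by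
  unfold hk
  fun_prop

private theorem rhomeas82 (v : ℝ) : Measurable (fun z => rho v z) := by
  unfold rho
  fun_prop

private theorem inc_evl82 (T : List (ℝ × (ℝ → ℝ → ℝ))) (s e e' : ℝ) (h : Inc s (evl82 T e)) :
    Inc s (evl82 T e') := by
  induction T generalizing s with
  | nil => exact h
  | cons a T ih =>
    have h1 : s < a.1 ∧ Inc a.1 (evl82 T e) := h
    exact ⟨h1.1, ih a.1 h1.2⟩

private theorem ok_evl82 (T : List (ℝ × (ℝ → ℝ → ℝ))) (hT : ∀ a ∈ T, Ok82 a.2) (e : ℝ) :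
    ∀ a ∈ evl82 T e, Measurable a.2 ∧ ∀ z, |a.2 z| ≤ 1 := by
  intro a ha
  unfold evl82 at ha
  rw [List.mem_map] at ha
  obtain ⟨c, hc, rfl⟩ := ha
  exact (hT c hc).1 e

private theorem mul_bd82 {f u : ℝ → ℝ} {B : ℝ} (hf : ∀ z, |f z| ≤ 1) (hu : ∀ z, 0 ≤ z → |u z| ≤ B)
    (z : ℝ) (hz : 0 < z) : |f z * u z| ≤ B := by
  rw [abs_mul]
  calc |f z| * |u z| ≤ 1 * |u z| := mul_le_mul_of_nonneg_right (hf z) (abs_nonneg _)
    _ ≤ B := by rw [one_mul]; exact hu z hz.le

private theorem bl_bdd82 {g : ℝ} (hg : 0 < g) (T : List (ℝ × (ℝ → ℝ → ℝ))) (s : ℝ)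
    (hi : Inc s (evl82 T 0)) (hT : ∀ a ∈ T, Ok82 a.2) :
    ∃ B : ℝ, ∀ e y, 0 ≤ y → |Bl g s (evl82 T e) y| ≤ B := by
  induction T generalizing s with
  | nil =>
    have h : s < 2 := hi
    obtain ⟨B, hB⟩ := (cz_bz (rho_cz (mul_pos hg (sub_pos.2 h)))).bdd
    exact ⟨B, fun e y hy => hB y hy⟩
  | cons a T ih =>
    have h : s < a.1 ∧ Inc a.1 (evl82 T 0) := hi
    have hT' : ∀ c ∈ T, Ok82 c.2 := fun c hc => hT c (List.mem_cons_of_mem _ hc)
    obtain ⟨B, hB⟩ := ih a.1 h.2 hT'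
    refine ⟨B, fun e y hy => ?_⟩
    have ha := (hT a List.mem_cons_self).1 e
    have hc := bl_cz hg (evl82 T e) a.1 (inc_evl82 T a.1 0 e h.2) (ok_evl82 T hT' e)
    exact tv_le (mul_pos hg (sub_pos.2 h.1)) (ha.1.mul hc.cont.measurable)
      (mul_bd82 ha.2 (hB e)) hy

private theorem ptw82 {a : ℝ → ℝ → ℝ} {u : ℝ → ℝ → ℝ} {w : ℝ → ℝ} (ha : Ok82 a)
    (hu : ∀ z, 0 < z → Tendsto (fun e : ℝ => u e z) (nhds 0) (nhds (u 0 z))) :
    ∀ᵐ z ∂(MeasureTheory.volume.restrict (Set.Ioi (0 : ℝ))),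
      Tendsto (fun e : ℝ => w z * (a e z * u e z)) (nhds 0) (nhds (w z * (a 0 z * u 0 z))) := by
  rw [MeasureTheory.ae_restrict_iff' measurableSet_Ioi]
  filter_upwards [ha.2] with z hz hz0
  exact (hz.mul (hu z hz0)).const_mul _

private theorem dom82 {a : ℝ → ℝ → ℝ} {u : ℝ → ℝ → ℝ} {w : ℝ → ℝ} {B : ℝ} (ha : Ok82 a)
    (hw : MeasureTheory.Integrable w) (hwm : Measurable w) (hum : ∀ e, Measurable (u e))
    (hB : ∀ e z, 0 ≤ z → |u e z| ≤ B)
    (hu : ∀ z, 0 < z → Tendsto (fun e : ℝ => u e z) (nhds 0) (nhds (u 0 z))) :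
    Tendsto (fun e : ℝ => ∫ z in Set.Ioi (0 : ℝ), w z * (a e z * u e z)) (nhds 0)
      (nhds (∫ z in Set.Ioi (0 : ℝ), w z * (a 0 z * u 0 z))) := by
  refine MeasureTheory.tendsto_integral_filter_of_dominated_convergence (fun z => |w z| * B) ?_ ?_ ?_
    (ptw82 ha hu)
  · refine Eventually.of_forall fun e => ?_
    exact (hwm.mul (((ha.1 e).1).mul (hum e))).aestronglyMeasurable
  · refine Eventually.of_forall fun e => ?_
    rw [MeasureTheory.ae_restrict_iff' measurableSet_Ioi]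
    refine Eventually.of_forall fun z hz => ?_
    rw [norm_mul, Real.norm_eq_abs, Real.norm_eq_abs]
    exact mul_le_mul_of_nonneg_left (mul_bd82 (ha.1 e).2 (hB e) z hz) (abs_nonneg _)
  · exact (hw.abs.mul_const B).integrableOn

private theorem bl_tend82 {g : ℝ} (hg : 0 < g) (T : List (ℝ × (ℝ → ℝ → ℝ))) (s : ℝ)
    (hi : Inc s (evl82 T 0)) (hT : ∀ a ∈ T, Ok82 a.2) (y : ℝ) :
    Tendsto (fun e : ℝ => Bl g s (evl82 T e) y) (nhds 0) (nhds (Bl g s (evl82 T 0) y)) := by
  induction T generalizing s y with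
  | nil => exact tendsto_const_nhds
  | cons a T ih =>
    have h : s < a.1 ∧ Inc a.1 (evl82 T 0) := hi
    have hT' : ∀ c ∈ T, Ok82 c.2 := fun c hc => hT c (List.mem_cons_of_mem _ hc)
    obtain ⟨B, hB⟩ := bl_bdd82 hg T a.1 h.2 hT'
    exact dom82 (hT a List.mem_cons_self) (hkint82 (mul_pos hg (sub_pos.2 h.1)) y) (hkmeas82 _ y)
      (fun e => (bl_cz hg (evl82 T e) a.1 (inc_evl82 T a.1 0 e h.2) (ok_evl82 T hT' e)).cont.measurable)
      hB (fun z _ => ih a.1 h.2 hT' z)

private theorem ml_tend82 {g : ℝ} (hg : 0 < g) (T : List (ℝ × (ℝ → ℝ → ℝ)))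
    (hi : Inc 0 (evl82 T 0)) (hT : ∀ a ∈ T, Ok82 a.2) :
    Tendsto (fun e : ℝ => Ml g (evl82 T e)) (nhds 0) (nhds (Ml g (evl82 T 0))) := by
  cases T with
  | nil => exact tendsto_const_nhds
  | cons a T =>
    have h : 0 < a.1 ∧ Inc a.1 (evl82 T 0) := hi
    have hT' : ∀ c ∈ T, Ok82 c.2 := fun c hc => hT c (List.mem_cons_of_mem _ hc)
    obtain ⟨B, hB⟩ := bl_bdd82 hg T a.1 h.2 hT'
    exact dom82 (hT a List.mem_cons_self) (rhoint82 (mul_pos hg h.1)) (rhomeas82 _)
      (fun e => (bl_cz hg (evl82 T e) a.1 (inc_evl82 T a.1 0 e h.2) (ok_evl82 T hT' e)).cont.measurable)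
      hB (fun z _ => bl_tend82 hg T a.1 h.2 hT' z)

private theorem inc_ofFn82 : ∀ (p : ℕ) (F : Fin p → ℝ × (ℝ → ℝ)) (r : ℝ), r < 2 → (∀ i, r < (F i).1) →
    (∀ i, (F i).1 < 2) → StrictMono (fun i => (F i).1) → Inc r (List.ofFn F) := by
  intro p
  induction p with
  | zero =>
    intro F r hr _ _ _
    rw [List.ofFn_zero]
    exact hr
  | succ p ih =>
    intro F r hr h1 h2 h3
    rw [List.ofFn_succ]
    refine ⟨h1 0, ?_⟩
    refine ih (fun i => F i.succ) _ (h2 0) (fun i => ?_) (fun i => h2 _) ?_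
    · exact h3 (Fin.succ_pos i)
    · intro i j hij
      exact h3 (Fin.succ_lt_succ_iff.2 hij)

private theorem fe_tend82 {g : ℝ} (hg : 0 < g) {p : ℕ} {s : Fin p → ℝ} (hs : StrictMono s)
    (hs1 : ∀ i, -1 < s i ∧ s i < 1) (f : Fin p → ℝ → ℝ → ℝ) (hf : ∀ i, Ok82 (f i)) :
    Tendsto (fun e : ℝ => Fe g p s (fun i => f i e)) (nhds 0) (nhds (Fe g p s (fun i => f i 0))) := by
  have hev : ∀ e : ℝ, evl82 (List.ofFn (fun i => (1 + s i, f i))) e = List.ofFn (fun i => (1 + s i, f i e)) := by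
    intro e
    unfold evl82
    rw [List.map_ofFn]
    rfl
  have h := ml_tend82 hg (List.ofFn (fun i => (1 + s i, f i))) ?_ ?_
  · simp only [hev] at h
    exact h
  · rw [hev]
    refine inc_ofFn82 p _ 0 (by norm_num) (fun i => ?_) (fun i => ?_) ?_
    · show 0 < 1 + s i
      linarith [(hs1 i).1]
    · show 1 + s i < 2
      linarith [(hs1 i).2]
    · intro i j hij
      show 1 + s i < 1 + s j
      linarith [hs hij]
  · intro a ha
    rw [List.mem_ofFn] at ha
    obtain ⟨i, rfl⟩ := ha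
    exact hf i

private theorem ind_meas82 (h : ℝ) : Measurable (ind h) := by
  unfold ind
  exact Measurable.ite measurableSet_Ici measurable_const measurable_const

private theorem ind_abs82 (h z : ℝ) : |ind h z| ≤ 1 := by
  unfold ind
  split_ifs <;> simp

private theorem ind_tend82 {b z : ℝ} (h : z ≠ b) :
    Tendsto (fun e : ℝ => ind (b + e) z) (nhds 0) (nhds (ind b z)) := by
  refine tendsto_const_nhds.congr' ?_
  have h1 : 0 < |z - b| := abs_pos.2 (sub_ne_zero.2 h)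
  filter_upwards [Metric.ball_mem_nhds (0 : ℝ) h1] with e he
  rw [Metric.mem_ball, Real.dist_eq, sub_zero] at he
  unfold ind
  have h2 : b ≤ z ↔ b + e ≤ z := by
    constructor
    · intro h3
      have h4 : 0 < z - b := lt_of_le_of_ne (by linarith) (Ne.symm (sub_ne_zero.2 h))
      rw [abs_of_pos h4] at he
      have := (abs_lt.1 he).2
      linarith
    · intro h3
      by_contra h5
      have h4 : z - b < 0 := by linarith [not_le.1 h5]
      rw [abs_of_neg h4] at he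
      have := (abs_lt.1 he).1
      linarith
  by_cases h3 : b ≤ z
  · rw [if_pos h3, if_pos (h2.1 h3)]
  · rw [if_neg h3, if_neg (fun h4 => h3 (h2.2 h4))]

private theorem ae_ne82 (c : ℝ) : ∀ᵐ z : ℝ, z ≠ c := by
  rw [MeasureTheory.ae_iff]
  simp

theorem fe_cont {g : ℝ} (hg : 0 < g) {p : ℕ} (hp : 1 ≤ p) {s : Fin p → ℝ} (hs : StrictMono s)
    (hs1 : ∀ i, -1 < s i ∧ s i < 1) (b : Fin p → ℝ) :
    Tendsto (fun e : ℝ => Fe g p s (fun i z => ind (b i + e) z)) (nhds 0) (nhds (Fe g p s (fun i z => ind (b i) z))) ∧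
    Tendsto (fun e : ℝ => Fe g p s (fun i z => ind (b i + e) (-z))) (nhds 0)
      (nhds (Fe g p s (fun i z => ind (b i) (-z)))) := by
  constructor
  · have h := fe_tend82 hg hs hs1 (fun i e z => ind (b i + e) z) ?_
    · simp only [add_zero] at h
      exact h
    · intro i
      refine ⟨fun e => ⟨ind_meas82 _, fun z => ind_abs82 _ _⟩, ?_⟩
      filter_upwards [ae_ne82 (b i)] with z hz
      have h1 := ind_tend82 hz
      simp only [add_zero]
      exact h1
  · have h := fe_tend82 hg hs hs1 (fun i e z => ind (b i + e) (-z)) ?_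
    · simp only [add_zero] at h
      exact h
    · intro i
      refine ⟨fun e => ⟨(ind_meas82 _).comp measurable_neg, fun z => ind_abs82 _ _⟩, ?_⟩
      filter_upwards [ae_ne82 (-(b i))] with z hz
      have h1 : -z ≠ b i := fun h2 => hz (by linarith)
      have h3 := ind_tend82 h1
      simp only [add_zero]
      exact h3

end Pool.Agent.Helper49.PL
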