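import Pool.Agent.Helper49.PL.Def
import Pool.Agent.Helper49.DX.Exc

/-!
Block PL-L: the law of the rescaled interface.

Paper proofs. `law β J n = ∑ ω ∈ confs (box n n) (eta 0), ofReal (wg ω/Z) • dirac (pth n ω)`, `Z = Zg .. 1 = ∑ wg > 0` (`Zg_one_pos`), `wg > 0` (`wg_pos`).
* `law_prob`: the total mass is `∑ ofReal (wg ω/Z) = ofReal 1 = 1`.
* `law_real`: `(law E) = ∑ ofReal (wg ω/Z) * indicator E (pth n ω)` (`Measure.dirac_apply'` for measurable `E`), and `PJ β J n (pth ∈ E) = (∑ wg ω * (if pth n ω ∈ E then 1 else 0))/Z`.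
* `law_int`: `integral_finset_sum_measure`, `integral_smul_measure`, `integral_dirac`; continuous functions are strongly measurable (the space is second countable).
-/

open Set Filter MeasureTheory
open scoped Classical

namespace Pool.Agent.Helper49.PL

open Pool.Agent.Helper49.DL Pool.Agent.Helper49.DX

/-- The law of the rescaled interface in the box of size `n`. -/
noncomputable def law (β J : ℝ) (n : ℕ) : Measure C(TI, ℝ) :=
  ∑ ω ∈ confs (box n n) (eta 0),
    ENNReal.ofReal (wg β (kap J) (box n n) ω / Zg β (kap J) (box n n) (eta 0) (fun _ => 1)) •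
      Measure.dirac (pth n ω)

private theorem wq_nonneg50 (β J : ℝ) (n : ℕ) (ω : Cfg) :
    0 ≤ wg β (kap J) (box n n) ω / Zg β (kap J) (box n n) (eta 0) (fun _ => 1) :=
  div_nonneg (wg_pos _ _ _ _).le Zg_one_pos.le

private theorem avg50 (β J : ℝ) (n : ℕ) (F : Cfg → ℝ) :
    avg β (kap J) (box n n) (eta 0) F = ∑ ω ∈ confs (box n n) (eta 0),
      wg β (kap J) (box n n) ω / Zg β (kap J) (box n n) (eta 0) (fun _ => 1) * F ω := by
  unfold avg
  conv_lhs => rw [Zg]
  rw [Finset.sum_div]
  refine Finset.sum_congr rfl fun ω _ => ?_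
  ring

instance law_prob (β J : ℝ) (n : ℕ) : IsProbabilityMeasure (law β J n) := by
  refine ⟨?_⟩
  unfold law
  rw [Measure.finsetSum_apply]
  simp only [Measure.smul_apply, measure_univ, smul_eq_mul, mul_one]
  rw [← ENNReal.ofReal_sum_of_nonneg (fun ω _ => wq_nonneg50 β J n ω), ← Finset.sum_div]
  have h : (∑ ω ∈ confs (box n n) (eta 0), wg β (kap J) (box n n) ω) =
      Zg β (kap J) (box n n) (eta 0) (fun _ => 1) := by
    unfold Zg
    simp
  rw [h, div_self Zg_one_pos.ne', ENNReal.ofReal_one]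

theorem law_real (β J : ℝ) (n : ℕ) {E : Set C(TI, ℝ)} (hE : MeasurableSet E) :
    (law β J n).real E = PJ β J n (fun ω => pth n ω ∈ E) := by
  rw [measureReal_def]
  unfold law
  rw [Measure.finsetSum_apply]
  simp only [Measure.smul_apply, smul_eq_mul]
  rw [ENNReal.toReal_sum]
  · unfold PJ
    rw [avg50]
    refine Finset.sum_congr rfl fun ω _ => ?_
    rw [ENNReal.toReal_mul, ENNReal.toReal_ofReal (wq_nonneg50 β J n ω), Measure.dirac_apply' _ hE]
    by_cases h : pth n ω ∈ E
    · rw [Set.indicator_of_mem h, if_pos h]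
      simp
    · rw [Set.indicator_of_notMem h, if_neg h]
      simp
  · intro ω _
    exact ENNReal.mul_ne_top ENNReal.ofReal_ne_top (measure_ne_top _ _)

theorem law_int (β J : ℝ) (n : ℕ) {F : C(TI, ℝ) → ℝ} (hF : Continuous F) :
    ∫ f, F f ∂(law β J n) = avg β (kap J) (box n n) (eta 0) (fun ω => F (pth n ω)) := by
  unfold law
  rw [integral_finsetSum_measure]
  · rw [avg50]
    refine Finset.sum_congr rfl fun ω _ => ?_
    rw [integral_smul_measure, integral_dirac, ENNReal.toReal_ofReal (wq_nonneg50 β J n ω), smul_eq_mul]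
  · intro ω _
    refine Integrable.smul_measure ?_ ENNReal.ofReal_ne_top
    exact integrable_dirac (by simp)

end Pool.Agent.Helper49.PL
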