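import Pool.Agent.Helper49.PL.ProbT
import Pool.Agent.Helper49.PL.Law
import Pool.Agent.Helper49.PL.Uniq
import Pool.Agent.Helper49.PL.FCont

/-!
Block PL-D: the finite dimensional distributions of the rescaled interface.

`FF p s b = (Fe (ind b) + Fe (ind b (-·)))/(2 Fe 1)`, the limit in `fdd` (`RD/Fdd.lean`).

Paper proof of `law_fdd`. `{f | ∀ i, b i ≤ ev f (s i)}` is closed (`ev_cont`), so its `law`-measure is `PJ (∀ i, b i ≤ pth n ω (s i))` (`law_real`; `ev f s = f ⟨s, _⟩` for `-1 ≤ s ≤ 1`, `Set.projIcc_of_mem`). Let `ε > 0` with `ε < |b i|` for all `i`; `x n i = ⌊n s i⌋`, `x n i/n → s i`, `|x n i| ≤ n`. Off an event of probability `→ 0`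
(`near_small`) `|pth n ω (s i) - ht n ω (x n i)/√n| ≤ ε` for all `i`. So `limsup PJ (∀ i, b i ≤ pth) ≤ limsup PJ (∀ i, (b i - ε) √n ≤ ht (x n i)) = lim PJ (∀ i, Above n (x n i) (K n i))` with `K n i = ⌈(b i - ε) √n - 1/2⌉` (`ht_ge`; `PJ` only depends on `ω ∈ confs`: `avg_congr`), `K n i/√n → b i - ε ≠ 0`, which is `FF p s (b - ε)` by `fdd`;
in the same way `liminf ≥ FF p s (b + ε)`. `ε → 0`: `fe_cont`. (`Fe .. 1 > 0`: `ml_pos`; only `FF` continuous is needed.)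
-/

open Filter MeasureTheory
open scoped Classical

namespace Pool.Agent.Helper49.PL

open Pool.Agent.Helper49.DL Pool.Agent.Helper49.DX Pool.Agent.Helper49.RD

private theorem PJ_orc65 {β J : ℝ} {n : ℤ} {E F G : Cfg → Prop}
    (h : ∀ ω ∈ confs (box n n) (eta 0), E ω → F ω ∨ G ω) :
    PJ β J n E ≤ PJ β J n F + PJ β J n G := by
  unfold PJ
  rw [← avg_add]
  refine avg_mono fun ω hω => ?_
  by_cases hE : E ω
  · rw [if_pos hE]
    rcases h ω hω hE with h1 | h1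
    · rw [if_pos h1]
      split_ifs <;> norm_num
    · rw [if_pos h1]
      split_ifs <;> norm_num
  · rw [if_neg hE]
    split_ifs <;> norm_num

private theorem FF_cont65 {g : ℝ} (hg : 0 < g) {p : ℕ} (hp : 1 ≤ p) {s : Fin p → ℝ} (hs : StrictMono s)
    (hs1 : ∀ i, -1 < s i ∧ s i < 1) (b : Fin p → ℝ) :
    Tendsto (fun e : ℝ => FF g p s (fun i => b i + e)) (nhds 0) (nhds (FF g p s b)) := by
  obtain ⟨h1, h2⟩ := fe_cont hg hp hs hs1 b
  exact (h1.add h2).div_const _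

private theorem floor_lim65 (c : ℝ) :
    Tendsto (fun n : ℕ => ((⌊(n : ℝ) * c⌋ : ℤ) : ℝ) / n) atTop (nhds c) := by
  have h1 : Tendsto (fun n : ℕ => c - 1 / (n : ℝ)) atTop (nhds c) := by
    have := (tendsto_const_nhds (x := c) (f := (atTop : Filter ℕ))).sub tendsto_one_div_atTop_nhds_zero_nat
    rwa [sub_zero] at this
  refine tendsto_of_tendsto_of_tendsto_of_le_of_le' h1 tendsto_const_nhds ?_ ?_
  · filter_upwards [eventually_ge_atTop 1] with n hn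
    have hn0 : (0 : ℝ) < n := by exact_mod_cast hn
    rw [le_div_iff₀ hn0]
    have h2 := Int.sub_one_lt_floor ((n : ℝ) * c)
    have h3 : (c - 1 / (n : ℝ)) * n = n * c - 1 := by field_simp
    rw [h3]
    exact h2.le
  · filter_upwards [eventually_ge_atTop 1] with n hn
    have hn0 : (0 : ℝ) < n := by exact_mod_cast hn
    rw [div_le_iff₀ hn0, mul_comm c]
    exact Int.floor_le _

private theorem ceil_lim65 (c : ℝ) :
    Tendsto (fun n : ℕ => ((⌈c * Real.sqrt n - 1 / 2⌉ : ℤ) : ℝ) / Real.sqrt n) atTop (nhds c) := by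
  have hsq : Tendsto (fun n : ℕ => Real.sqrt (n : ℝ)) atTop atTop :=
    Real.tendsto_sqrt_atTop.comp tendsto_natCast_atTop_atTop
  have h0 : Tendsto (fun n : ℕ => 1 / 2 / Real.sqrt (n : ℝ)) atTop (nhds 0) := hsq.const_div_atTop (1 / 2)
  have h1 : Tendsto (fun n : ℕ => c - 1 / 2 / Real.sqrt (n : ℝ)) atTop (nhds c) := by
    have := (tendsto_const_nhds (x := c) (f := (atTop : Filter ℕ))).sub h0
    rwa [sub_zero] at this
  have h2 : Tendsto (fun n : ℕ => c + 1 / 2 / Real.sqrt (n : ℝ)) atTop (nhds c) := by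
    have := (tendsto_const_nhds (x := c) (f := (atTop : Filter ℕ))).add h0
    rwa [add_zero] at this
  refine tendsto_of_tendsto_of_tendsto_of_le_of_le' h1 h2 ?_ ?_
  · filter_upwards [eventually_ge_atTop 1] with n hn
    have hn0 : (0 : ℝ) < Real.sqrt n := Real.sqrt_pos.2 (by exact_mod_cast hn)
    rw [le_div_iff₀ hn0]
    have h3 : (c - 1 / 2 / Real.sqrt (n : ℝ)) * Real.sqrt n = c * Real.sqrt n - 1 / 2 := by field_simp
    rw [h3]
    exact Int.le_ceil _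
  · filter_upwards [eventually_ge_atTop 1] with n hn
    have hn0 : (0 : ℝ) < Real.sqrt n := Real.sqrt_pos.2 (by exact_mod_cast hn)
    rw [div_le_iff₀ hn0]
    have h3 : (c + 1 / 2 / Real.sqrt (n : ℝ)) * Real.sqrt n = c * Real.sqrt n - 1 / 2 + 1 := by
      field_simp
      ring
    rw [h3]
    exact (Int.ceil_lt_add_one _).le

theorem law_fdd {β₁ β J : ℝ} (h0 : 0 ≤ β₁) (h : β₁ < β) (hm : 0 < mag β₁) (hJ : 1 < J) {p : ℕ} (hp : 1 ≤ p)
    {s b : Fin p → ℝ} (hs : StrictMono s) (hs1 : ∀ i, -1 < s i ∧ s i < 1) (hb : ∀ i, b i ≠ 0) :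
    Tendsto (fun n : ℕ => (law β J n).real {f | ∀ i, b i ≤ ev f (s i)}) atTop
      (nhds (FF (sg (Real.exp (-β))) p s b)) := by
  have hq := t_small h0 h hm
  have hg : 0 < sg (Real.exp (-β)) := by
    have h1 := lam_pos (Real.exp_pos (-β)) (t_lt_one (Real.exp_pos _) hq)
    have h2 := lam_lt_one (Real.exp_pos (-β)) hq
    unfold RD.sg
    have h3 : 0 < 1 - lam (Real.exp (-β)) ^ 2 := by nlinarith
    positivity
  set g := sg (Real.exp (-β)) with hgd
  have hne : Nonempty (Fin p) := ⟨⟨0, hp⟩⟩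
  rw [Metric.tendsto_atTop]
  intro η hη
  have hη3 : 0 < η / 3 := by positivity
  have hc := FF_cont65 hg hp hs hs1 b
  rw [Metric.tendsto_nhds_nhds] at hc
  obtain ⟨δ, hδ, hc⟩ := hc (η / 3) hη3
  obtain ⟨i₀, hi₀⟩ := Finite.exists_min (fun i => |b i|)
  have hb0 : 0 < |b i₀| := abs_pos.2 (hb i₀)
  obtain ⟨ε, hε, hεδ, hεb⟩ : ∃ ε : ℝ, 0 < ε ∧ ε < δ ∧ ∀ i, ε < |b i| := by
    refine ⟨min (δ / 2) (|b i₀| / 2), by positivity, ?_, fun i => ?_⟩
    · have := min_le_left (δ / 2) (|b i₀| / 2)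
      linarith
    · have h1 := min_le_right (δ / 2) (|b i₀| / 2)
      have h2 := hi₀ i
      linarith
  have hplus : dist (FF g p s (fun i => b i + ε)) (FF g p s b) < η / 3 :=
    hc (by rw [Real.dist_eq, sub_zero, abs_of_pos hε]; exact hεδ)
  have hminus : dist (FF g p s (fun i => b i + -ε)) (FF g p s b) < η / 3 :=
    hc (by rw [Real.dist_eq, sub_zero, abs_neg, abs_of_pos hε]; exact hεδ)
  obtain ⟨n₁, hn₁⟩ := near_small h0 h hm hJ hε hη3
  have hbm : ∀ i, b i + -ε ≠ 0 := by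
    intro i h1
    have h2 : b i = ε := by linarith
    have h3 := hεb i
    rw [h2, abs_of_pos hε] at h3
    exact lt_irrefl _ h3
  have hbp : ∀ i, b i + ε ≠ 0 := by
    intro i h1
    have h2 : b i = -ε := by linarith
    have h3 := hεb i
    rw [h2, abs_neg, abs_of_pos hε] at h3
    exact lt_irrefl _ h3
  have hU : Tendsto (fun n : ℕ => PJ β J n (fun ω => ∀ i, Above n ⌊(n : ℝ) * s i⌋
      ⌈(b i + -ε) * Real.sqrt n - 1 / 2⌉ ω)) atTop (nhds (FF g p s (fun i => b i + -ε))) :=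
    fdd h0 h hm hJ hp hs hs1 (b := fun i => b i + -ε) hbm
      (x := fun n i => ⌊(n : ℝ) * s i⌋) (K := fun n i => ⌈(b i + -ε) * Real.sqrt n - 1 / 2⌉)
      (fun i => floor_lim65 (s i)) (fun i => ceil_lim65 (b i + -ε))
  have hL : Tendsto (fun n : ℕ => PJ β J n (fun ω => ∀ i, Above n ⌊(n : ℝ) * s i⌋
      ⌈(b i + ε) * Real.sqrt n - 1 / 2⌉ ω)) atTop (nhds (FF g p s (fun i => b i + ε))) :=
    fdd h0 h hm hJ hp hs hs1 (b := fun i => b i + ε) hbp
      (x := fun n i => ⌊(n : ℝ) * s i⌋) (K := fun n i => ⌈(b i + ε) * Real.sqrt n - 1 / 2⌉)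
      (fun i => floor_lim65 (s i)) (fun i => ceil_lim65 (b i + ε))
  rw [Metric.tendsto_atTop] at hU hL
  obtain ⟨n₂, hn₂⟩ := hU (η / 3) hη3
  obtain ⟨n₃, hn₃⟩ := hL (η / 3) hη3
  refine ⟨max (max n₁ n₂) (max n₃ 1), fun n hn => ?_⟩
  have e1 : n₁ ≤ n := ((le_max_left _ _).trans (le_max_left _ _)).trans hn
  have e2 : n₂ ≤ n := ((le_max_right _ _).trans (le_max_left _ _)).trans hn
  have e3 : n₃ ≤ n := ((le_max_left _ _).trans (le_max_right _ _)).trans hn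
  have e4 : 1 ≤ n := ((le_max_right _ _).trans (le_max_right _ _)).trans hn
  have hn0 : (0 : ℝ) < n := by exact_mod_cast e4
  have hsq : (0 : ℝ) < Real.sqrt n := Real.sqrt_pos.2 hn0
  have hmeas : MeasurableSet {f : C(TI, ℝ) | ∀ i, b i ≤ ev f (s i)} := by
    have h1 : {f : C(TI, ℝ) | ∀ i, b i ≤ ev f (s i)} = ⋂ i, {f : C(TI, ℝ) | b i ≤ ev f (s i)} := by
      ext f
      exact ⟨fun h => Set.mem_iInter.2 h, fun h => Set.mem_iInter.1 h⟩
    rw [h1]
    exact (isClosed_iInter fun i => isClosed_le continuous_const (ev_cont (s i))).measurableSet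
  rw [law_real β J n hmeas]
  have hxn : ∀ i, |⌊(n : ℝ) * s i⌋| ≤ (n : ℤ) := by
    intro i
    obtain ⟨h1, h2⟩ := hs1 i
    rw [abs_le]
    constructor
    · rw [Int.le_floor]
      push_cast
      nlinarith
    · have h3 := Int.floor_le ((n : ℝ) * s i)
      have h4 : ((⌊(n : ℝ) * s i⌋ : ℤ) : ℝ) ≤ ((n : ℤ) : ℝ) := by
        push_cast
        nlinarith
      exact_mod_cast h4
  have hev : ∀ (f : C(TI, ℝ)) (i : Fin p), ev f (s i) = f ⟨s i, (hs1 i).1.le, (hs1 i).2.le⟩ := by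
    intro f i
    unfold ev
    congr 1
    exact Set.projIcc_of_mem _ _
  have hbad := hn₁ n e1
  -- upper bound
  have hup : PJ β J n (fun ω => pth n ω ∈ {f : C(TI, ℝ) | ∀ i, b i ≤ ev f (s i)}) ≤
      PJ β J n (fun ω => ∀ i, Above n ⌊(n : ℝ) * s i⌋ ⌈(b i + -ε) * Real.sqrt n - 1 / 2⌉ ω) +
      PJ β J n (fun ω => ∃ s : TI, ε < |pth n ω s - ht n ω ⌊(n : ℝ) * (s : ℝ)⌋ / Real.sqrt n|) := by
    refine PJ_orc65 fun ω hω hE => ?_
    by_cases hb' : ∃ s : TI, ε < |pth n ω s - ht n ω ⌊(n : ℝ) * (s : ℝ)⌋ / Real.sqrt n|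
    · exact Or.inr hb'
    · left
      intro i
      rw [← ht_ge e4 hω (hxn i)]
      have h1 : b i ≤ ev (pth n ω) (s i) := hE i
      rw [hev] at h1
      have h2 := (not_lt.1 fun h3 => hb' ⟨⟨s i, (hs1 i).1.le, (hs1 i).2.le⟩, h3⟩)
      have h3 := (abs_le.1 h2).2
      have h4 : b i + -ε ≤ ht n ω ⌊(n : ℝ) * s i⌋ / Real.sqrt n := by linarith
      rwa [le_div_iff₀ hsq] at h4
  have hlo : PJ β J n (fun ω => ∀ i, Above n ⌊(n : ℝ) * s i⌋ ⌈(b i + ε) * Real.sqrt n - 1 / 2⌉ ω) ≤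
      PJ β J n (fun ω => pth n ω ∈ {f : C(TI, ℝ) | ∀ i, b i ≤ ev f (s i)}) +
      PJ β J n (fun ω => ∃ s : TI, ε < |pth n ω s - ht n ω ⌊(n : ℝ) * (s : ℝ)⌋ / Real.sqrt n|) := by
    refine PJ_orc65 fun ω hω hE => ?_
    by_cases hb' : ∃ s : TI, ε < |pth n ω s - ht n ω ⌊(n : ℝ) * (s : ℝ)⌋ / Real.sqrt n|
    · exact Or.inr hb'
    · left
      intro i
      have h1 := hE i
      rw [← ht_ge e4 hω (hxn i)] at h1
      show b i ≤ ev (pth n ω) (s i)
      rw [hev]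
      have h2 := (not_lt.1 fun h3 => hb' ⟨⟨s i, (hs1 i).1.le, (hs1 i).2.le⟩, h3⟩)
      have h3 := (abs_le.1 h2).1
      rw [← le_div_iff₀ hsq] at h1
      have h4 : ht n ω ⌊(n : ℝ) * s i⌋ / Real.sqrt n - ε ≤ pth n ω ⟨s i, (hs1 i).1.le, (hs1 i).2.le⟩ := by
        linarith
      linarith
  have k1 := hn₂ n e2
  have k2 := hn₃ n e3
  rw [Real.dist_eq, abs_lt] at k1 k2 hplus hminus ⊢
  constructor
  · linarith [k2.1, hplus.1]
  · linarith [k1.2, hminus.2]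

end Pool.Agent.Helper49.PL
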