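import Pool.Agent.Helper49.PL.LawF
import Pool.Agent.Helper49.PL.TightA
import Pool.Agent.Helper49.PL.Conv

/-!
Block PL-F: the functional limit theorem.

Paper proof. `tight_of_mod` for `ν = law β J`: `h1` from `end_small` (`A = ε`), `h2` from `mod_small`, by `law_real` (the sets are open or complements of closed sets, hence measurable). `conv` with `F = FF (sg (exp (-β)))` and `law_fdd`; `law_int`. For the last part: `μ {b ≤ ev f s} ≤ μ {b - e < ev f s} ≤ FF (b - e)` for `e > 0` small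
(nonzero coordinates), and `FF` is continuous (`fe_cont`), so `μ {b ≤ ev f s} ≤ FF b ≤ μ {b ≤ ev f s}`.
-/

open Filter MeasureTheory
open scoped Classical

namespace Pool.Agent.Helper49.PL

open Pool.Agent.Helper49.DL Pool.Agent.Helper49.DX Pool.Agent.Helper49.RD

private lemma sgp97 {t : ℝ} (ht : 0 < t) (hq : t ^ 2 + 2 * t < 1) : 0 < RD.sg t := by
  have h1 := lam_pos ht (t_lt_one ht hq)
  have h2 := lam_lt_one ht hq
  unfold RD.sg
  have h3 : 0 < 1 - lam t ^ 2 := by nlinarith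
  positivity

private lemma tight97 {β₁ β J : ℝ} (h0 : 0 ≤ β₁) (h : β₁ < β) (hm : 0 < mag β₁) (hJ : 1 < J) :
    IsTightMeasureSet (Set.range (law β J)) := by
  refine tight_of_mod ?_ ?_
  · intro t ht
    obtain ⟨n₀, hn⟩ := end_small h0 h hm hJ one_pos ht
    refine ⟨1, n₀, fun n hn0 => ?_⟩
    have hE : MeasurableSet {f : C(TI, ℝ) | 1 < |f lft|} := by
      refine (isOpen_lt continuous_const ?_).measurableSet
      fun_prop
    rw [law_real β J n hE]
    exact hn n hn0
  · intro ε t hε ht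
    obtain ⟨d, n₀, hd, hn⟩ := mod_small h0 h hm hJ hε ht
    refine ⟨d, n₀, hd, fun n hn0 => ?_⟩
    have hE : MeasurableSet {f : C(TI, ℝ) | ∃ s s' : TI, |(s : ℝ) - s'| ≤ d ∧ ε < |f s - f s'|} := by
      have h1 : {f : C(TI, ℝ) | ∃ s s' : TI, |(s : ℝ) - s'| ≤ d ∧ ε < |f s - f s'|} =
          ⋃ s : TI, ⋃ s' : TI, ⋃ _ : |(s : ℝ) - s'| ≤ d, {f : C(TI, ℝ) | ε < |f s - f s'|} := by
        ext f
        simp only [Set.mem_ofPred_eq, Set.mem_iUnion, exists_prop]
      rw [h1]
      refine (isOpen_iUnion fun s => isOpen_iUnion fun s' => isOpen_iUnion fun _ => ?_).measurableSet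
      refine isOpen_lt continuous_const ?_
      fun_prop
    rw [law_real β J n hE]
    exact hn n hn0

theorem functional_limit {β₁ β J : ℝ} (h0 : 0 ≤ β₁) (h : β₁ < β) (hm : 0 < mag β₁) (hJ : 1 < J) :
    ∃ μ : Measure C(TI, ℝ), IsProbabilityMeasure μ ∧
      (∀ G : C(TI, ℝ) → ℝ, Continuous G → (∃ B : ℝ, ∀ f, |G f| ≤ B) →
        Tendsto (fun n : ℕ => avg β (kap J) (box n n) (eta 0) (fun ω => G (pth n ω))) atTop
          (nhds (∫ f, G f ∂μ))) ∧
      ∀ p : ℕ, 1 ≤ p → ∀ s b : Fin p → ℝ, StrictMono s → (∀ i, -1 < s i ∧ s i < 1) → (∀ i, b i ≠ 0) →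
        μ.real {f | ∀ i, b i ≤ ev f (s i)} = FF (sg (Real.exp (-β))) p s b := by
  have hg : 0 < sg (Real.exp (-β)) := sgp97 (Real.exp_pos _) (t_small h0 h hm)
  obtain ⟨μ, hμ, hG, hX⟩ := conv (ν := law β J) (tight97 h0 h hm hJ)
    (F := fun p s b => FF (sg (Real.exp (-β))) p s b)
    (fun p hp s b hs hs1 hb => law_fdd h0 h hm hJ hp hs hs1 hb)
  refine ⟨μ, hμ, fun G hGc hGb => ?_, fun p hp s b hs hs1 hb => ?_⟩
  · refine (hG G hGc hGb).congr fun n => ?_
    exact law_int β J n hGc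
  · refine le_antisymm ?_ (hX p hp s b hs hs1 hb).2
    obtain ⟨c1, c2⟩ := fe_cont hg hp hs hs1 b
    have h1 : Tendsto (fun e : ℝ => FF (sg (Real.exp (-β))) p s (fun i => b i + e)) (nhds 0)
        (nhds (FF (sg (Real.exp (-β))) p s b)) := by
      unfold FF
      exact (c1.add c2).div_const _
    have h2 : Tendsto (fun e : ℝ => FF (sg (Real.exp (-β))) p s (fun i => b i + -e)) (nhdsWithin 0 (Set.Ioi 0))
        (nhds (FF (sg (Real.exp (-β))) p s b)) := by
      have h3 : Tendsto (fun e : ℝ => -e) (nhdsWithin 0 (Set.Ioi 0)) (nhds 0) := by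
        have h4 : Tendsto (fun e : ℝ => -e) (nhds 0) (nhds (-0)) := tendsto_id.neg
        rw [neg_zero] at h4
        exact h4.mono_left nhdsWithin_le_nhds
      exact h1.comp h3
    refine ge_of_tendsto h2 ?_
    have h5 : ∀ᶠ e : ℝ in nhdsWithin 0 (Set.Ioi 0), ∀ i, b i + -e ≠ 0 := by
      rw [Filter.eventually_all]
      intro i
      have h6 : Tendsto (fun e : ℝ => b i + -e) (nhds 0) (nhds (b i + -0)) := tendsto_const_nhds.add tendsto_id.neg
      rw [neg_zero, add_zero] at h6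
      exact (h6.mono_left nhdsWithin_le_nhds).eventually_ne (hb i)
    filter_upwards [h5, self_mem_nhdsWithin] with e he he0
    have he1 : 0 < e := he0
    refine le_trans ?_ (hX p hp s (fun i => b i + -e) hs hs1 he).1
    refine measureReal_mono ?_ (measure_ne_top _ _)
    intro f hf i
    have := hf i
    linarith

end Pool.Agent.Helper49.PL
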