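import Pool.Agent.Helper49.FL.Def
import Pool.Agent.Helper49.DL.Deloc
import Pool.Agent.Helper49.DL.Explore

/-!
The rescaled interface as a continuous path on `[-1, 1]`.
-/

open Set Filter MeasureTheory

namespace Pool.Agent.Helper49.PL

open Pool.Agent.Helper49.DL

export Pool.Agent.Helper49.FL (TI)

/-- Upper height of the interface in the column `x`: the largest `y` such that the dual edge at the height
`y` of the vertical bond `{(x, y - 1/2), (x, y + 1/2)}` belongs to the interface. -/
noncomputable def ht (n : ℤ) (ω : Cfg) (x : ℤ) : ℝ :=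
  sSup {y : ℝ | ∃ k : ℤ, Interface n ω ((x, k), false) ∧ y = k + 1 / 2}

/-- The rescaled interface: linear interpolation of the points `(x / n, ht n ω x / √n)`, `-n ≤ x ≤ n`
(a sum of tent functions). -/
noncomputable def pth (n : ℕ) (ω : Cfg) : C(TI, ℝ) where
  toFun s := ∑ x ∈ Finset.Icc (-(n : ℤ)) n, ht n ω x / Real.sqrt n * max 0 (1 - |n * (s : ℝ) - x|)
  continuous_toFun := by fun_prop

end Pool.Agent.Helper49.PL
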