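import Pool.Agent.Helper49.PL.Def

/-!
Block PL-P: the interpolation.

Paper proofs. Let `u = n s`, `-n ≤ u ≤ n`, `G x = ht n ω x`. If `x ≤ u ≤ x + 1`, `-n ≤ x`, `x + 1 ≤ n` (integer `x`) then the only tents which are positive at `u` are those of `x` and `x + 1`, with the values `x + 1 - u` and `u - x`.
* `pth_int`: `u = x`. `pth_conv`: the formula `√n * pth s = (x + 1 - u) G x + (u - x) G (x + 1)`.
* `pth_near`: `x = ⌊u⌋`; if `x = n` then `u = n` and `pth s = G n/√n`; else `√n (pth s) - G x = (u - x) (G (x+1) - G x)`.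
* `pth_mod`: let `s ≤ s'`, `|s - s'| ≤ d`; `√n pth s` is a convex combination of `G x`, `G (x + 1)` with `x = ⌊n s⌋` (only `G n` if `x = n`), `√n pth s'` of `G x'`, `G (x' + 1)`, and all the integers involved (with nonzero weight, or in `[-n, n]`) are at distance `≤ n d + 2`: `|x' - x| ≤ n d + 1` etc. A difference of convex combinations is bounded by the
  maximal difference of the values. (`n ≥ 1`.)
-/

namespace Pool.Agent.Helper49.PL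

open Pool.Agent.Helper49.DL

private theorem pth_eq_h54 (n : ℕ) (ω : Cfg) (s : TI) :
    pth n ω s = ∑ x ∈ Finset.Icc (-(n : ℤ)) n, ht n ω x / Real.sqrt n * max 0 (1 - |n * (s : ℝ) - x|) := rfl

private theorem zero_h54 {u : ℝ} {y : ℤ} (h : 1 ≤ |u - y|) (c : ℝ) : c * max 0 (1 - |u - (y : ℝ)|) = 0 := by
  rw [max_eq_left (by linarith), mul_zero]

theorem pth_int {n : ℕ} (hn : 1 ≤ n) (ω : Cfg) {x : ℤ} (hx : |x| ≤ n) (s : TI) (hs : (n : ℝ) * (s : ℝ) = x) :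
    pth n ω s = ht n ω x / Real.sqrt n := by
  rw [pth_eq_h54, Finset.sum_eq_single x]
  · rw [hs, sub_self, abs_zero, sub_zero, max_eq_right zero_le_one, mul_one]
  · intro y _ hy
    refine zero_h54 ?_ _
    rw [hs]
    have h1 : 1 ≤ |x - y| := Int.one_le_abs (sub_ne_zero.2 (Ne.symm hy))
    exact_mod_cast h1
  · intro h
    exact absurd (Finset.mem_Icc.2 (abs_le.1 hx)) h

theorem pth_conv {n : ℕ} (hn : 1 ≤ n) (ω : Cfg) {x : ℤ} (hx : -(n : ℤ) ≤ x) (hx' : x + 1 ≤ n) (s : TI)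
    (h1 : (x : ℝ) ≤ n * (s : ℝ)) (h2 : (n : ℝ) * (s : ℝ) ≤ x + 1) :
    pth n ω s = ((x + 1 - n * (s : ℝ)) * ht n ω x + (n * (s : ℝ) - x) * ht n ω (x + 1)) / Real.sqrt n := by
  rw [pth_eq_h54, ← Finset.sum_subset (s₁ := {x, x + 1}), Finset.sum_pair (by omega)]
  · rw [abs_of_nonneg (by linarith : (0 : ℝ) ≤ n * (s : ℝ) - x),
      max_eq_right (by linarith : (0 : ℝ) ≤ 1 - (n * (s : ℝ) - x))]
    push_cast
    rw [abs_of_nonpos (by linarith : (n : ℝ) * (s : ℝ) - (x + 1) ≤ 0),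
      max_eq_right (by linarith : (0 : ℝ) ≤ 1 - -((n : ℝ) * (s : ℝ) - (x + 1)))]
    ring
  · intro y hy
    rw [Finset.mem_insert, Finset.mem_singleton] at hy
    rw [Finset.mem_Icc]
    omega
  · intro y _ hy
    refine zero_h54 ?_ _
    rw [Finset.mem_insert, Finset.mem_singleton] at hy
    push Not at hy
    rcases lt_or_gt_of_ne hy.1 with h | h
    · have h3 : (y : ℝ) + 1 ≤ x := by exact_mod_cast h
      rw [abs_of_nonneg (by linarith)]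
      linarith
    · have h4 : x + 1 + 1 ≤ y := by omega
      have h3 : (x : ℝ) + 1 + 1 ≤ y := by exact_mod_cast h4
      rw [abs_of_nonpos (by linarith)]
      linarith

private theorem dich_h54 {n : ℕ} (s : TI) :
    -(n : ℤ) ≤ ⌊(n : ℝ) * (s : ℝ)⌋ ∧ (⌊(n : ℝ) * (s : ℝ)⌋ + 1 ≤ n ∨
      ((n : ℝ) * (s : ℝ) = n ∧ ⌊(n : ℝ) * (s : ℝ)⌋ = n)) := by
  have hs := s.2
  have h0 : (0 : ℝ) ≤ n := Nat.cast_nonneg n
  have h1 : (n : ℝ) * (s : ℝ) ≤ n := by nlinarith [hs.2]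
  have h2 : -(n : ℝ) ≤ (n : ℝ) * (s : ℝ) := by nlinarith [hs.1]
  constructor
  · rw [Int.le_floor]
    push_cast
    exact h2
  · rcases h1.lt_or_eq with h | h
    · left
      have h3 : ⌊(n : ℝ) * (s : ℝ)⌋ < (n : ℤ) := by
        rw [Int.floor_lt]
        exact_mod_cast h
      omega
    · right
      refine ⟨h, ?_⟩
      rw [h, Int.floor_natCast]

theorem pth_near {n : ℕ} (hn : 1 ≤ n) (ω : Cfg) (s : TI) {m : ℝ} (hm : 0 ≤ m)
    (h : ∀ x x' : ℤ, |x| ≤ n → |x'| ≤ n → |x - x'| ≤ 1 → |ht n ω x - ht n ω x'| ≤ m) :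
    |pth n ω s - ht n ω ⌊(n : ℝ) * (s : ℝ)⌋ / Real.sqrt n| ≤ m / Real.sqrt n := by
  have hq : 0 ≤ Real.sqrt n := Real.sqrt_nonneg _
  obtain ⟨h1, h2 | ⟨h2, h3⟩⟩ := dich_h54 (n := n) s
  · have h4 := Int.floor_le ((n : ℝ) * (s : ℝ))
    have h5 := (Int.lt_floor_add_one ((n : ℝ) * (s : ℝ))).le
    rw [pth_conv hn ω h1 h2 s h4 h5, ← sub_div, abs_div, abs_of_nonneg hq]
    refine div_le_div_of_nonneg_right ?_ hq
    set x := ⌊(n : ℝ) * (s : ℝ)⌋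
    have h6 := h (x + 1) x (abs_le.2 ⟨by omega, h2⟩) (abs_le.2 ⟨h1, by omega⟩) (by
      rw [add_sub_cancel_left, abs_one])
    have e : ((x : ℝ) + 1 - n * (s : ℝ)) * ht n ω x + (n * (s : ℝ) - x) * ht n ω (x + 1) - ht n ω x =
        (n * (s : ℝ) - x) * (ht n ω (x + 1) - ht n ω x) := by ring
    rw [e, abs_mul, abs_of_nonneg (by linarith : (0 : ℝ) ≤ n * (s : ℝ) - x)]
    calc (n * (s : ℝ) - x) * |ht n ω (x + 1) - ht n ω x| ≤ 1 * m :=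
          mul_le_mul (by linarith) h6 (abs_nonneg _) zero_le_one
      _ = m := one_mul m
  · rw [h3, pth_int hn ω (x := (n : ℤ)) (by rw [Nat.abs_cast]) s (by rw [h2]; rfl), sub_self, abs_zero]
    exact div_nonneg hm hq

private theorem rep_h54 {n : ℕ} (hn : 1 ≤ n) (ω : Cfg) (s : TI) :
    ∃ (x y : ℤ) (t : ℝ), |x| ≤ n ∧ |y| ≤ n ∧ 0 ≤ t ∧ t ≤ 1 ∧ |(x : ℝ) - n * (s : ℝ)| ≤ 1 ∧
      |(y : ℝ) - n * (s : ℝ)| ≤ 1 ∧ pth n ω s = ((1 - t) * ht n ω x + t * ht n ω y) / Real.sqrt n := by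
  obtain ⟨h1, h2 | ⟨h2, h3⟩⟩ := dich_h54 (n := n) s
  · have h4 := Int.floor_le ((n : ℝ) * (s : ℝ))
    have h5 := (Int.lt_floor_add_one ((n : ℝ) * (s : ℝ))).le
    refine ⟨⌊(n : ℝ) * (s : ℝ)⌋, ⌊(n : ℝ) * (s : ℝ)⌋ + 1, n * (s : ℝ) - ⌊(n : ℝ) * (s : ℝ)⌋,
      abs_le.2 ⟨h1, by omega⟩, abs_le.2 ⟨by omega, h2⟩, by linarith, by linarith,
      abs_le.2 ⟨by linarith, by linarith⟩, ?_, ?_⟩
    · push_cast
      exact abs_le.2 ⟨by linarith, by linarith⟩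
    · rw [pth_conv hn ω h1 h2 s h4 h5]
      congr 2
      ring
  · refine ⟨n, n, 0, by rw [Nat.abs_cast], by rw [Nat.abs_cast], le_rfl, zero_le_one, ?_, ?_, ?_⟩
    · rw [h2]
      simp
    · rw [h2]
      simp
    · rw [pth_int hn ω (x := (n : ℤ)) (by rw [Nat.abs_cast]) s (by rw [h2]; rfl)]
      congr 1
      ring

private theorem convex_h54 {a b c e t t' m : ℝ} (ht0 : 0 ≤ t) (ht1 : t ≤ 1) (ht0' : 0 ≤ t') (ht1' : t' ≤ 1)
    (h1 : |a - c| ≤ m) (h2 : |a - e| ≤ m) (h3 : |b - c| ≤ m) (h4 : |b - e| ≤ m) :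
    |(1 - t) * a + t * b - ((1 - t') * c + t' * e)| ≤ m := by
  have h (k : ℝ) (l : ℝ) (r : ℝ) (hl0 : 0 ≤ l) (hl1 : l ≤ 1) (p : |k| ≤ m) (q : |r| ≤ m) :
      |(1 - l) * k + l * r| ≤ m := by
    rw [abs_le] at p q ⊢
    constructor <;> nlinarith
  have e1 : (1 - t) * a + t * b - ((1 - t') * c + t' * e) =
      (1 - t) * ((1 - t') * (a - c) + t' * (a - e)) + t * ((1 - t') * (b - c) + t' * (b - e)) := by ring
  rw [e1]
  exact h _ _ _ ht0 ht1 (h _ _ _ ht0' ht1' h1 h2) (h _ _ _ ht0' ht1' h3 h4)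

theorem pth_mod {n : ℕ} (hn : 1 ≤ n) (ω : Cfg) {d m : ℝ} (hd : 0 ≤ d)
    (h : ∀ x x' : ℤ, |x| ≤ n → |x'| ≤ n → |(x : ℝ) - x'| ≤ n * d + 2 → |ht n ω x - ht n ω x'| ≤ m) (s s' : TI)
    (hs : |(s : ℝ) - s'| ≤ d) : |pth n ω s - pth n ω s'| ≤ m / Real.sqrt n := by
  have hq : 0 ≤ Real.sqrt n := Real.sqrt_nonneg _
  have hn0 : (0 : ℝ) ≤ n := Nat.cast_nonneg n
  obtain ⟨x, y, t, hx, hy, ht0, ht1, hxs, hys, e⟩ := rep_h54 hn ω s
  obtain ⟨x', y', t', hx', hy', ht0', ht1', hxs', hys', e'⟩ := rep_h54 hn ω s'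
  have hd' : |(n : ℝ) * (s : ℝ) - n * (s' : ℝ)| ≤ n * d := by
    rw [← mul_sub, abs_mul, abs_of_nonneg hn0]
    exact mul_le_mul_of_nonneg_left hs hn0
  have key : ∀ k l : ℤ, |(k : ℝ) - n * (s : ℝ)| ≤ 1 → |(l : ℝ) - n * (s' : ℝ)| ≤ 1 →
      |(k : ℝ) - l| ≤ n * d + 2 := by
    intro k l hk hl
    rw [abs_le] at hk hl hd' ⊢
    constructor <;> linarith
  rw [e, e', ← sub_div, abs_div, abs_of_nonneg hq]
  refine div_le_div_of_nonneg_right ?_ hq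
  exact convex_h54 ht0 ht1 ht0' ht1' (h _ _ hx hx' (key _ _ hxs hxs')) (h _ _ hx hy' (key _ _ hxs hys'))
    (h _ _ hy hx' (key _ _ hys hxs')) (h _ _ hy hy' (key _ _ hys hys'))

end Pool.Agent.Helper49.PL
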