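import Pool.Agent.Helper49.PL.Ht
import Pool.Agent.Helper49.PL.Pth
import Pool.Agent.Helper49.TT.Tight
import Pool.Agent.Helper49.DX.End
import Pool.Agent.Helper49.DX.Hs

/-!
Block PL-T: modulus of continuity and left end of the rescaled interface.

Paper proofs. `osc n ω r m`: for all `|x|, |x'| ≤ n` with `|x - x'| ≤ r`: `|ht x - ht x'| ≤ m`.
* `osc_small`: for `ε, t > 0` there are `δ > 0`, `n₀` with `P (¬ osc n ω (δ n) (ε √n)) ≤ t` for `n ≥ n₀`: if `ht n ω x' - ht n ω x > ε √n` let `K = ht n ω x + 1/2` (an integer; so `¬ Above n x K`, `ht_iff`), `k = ht n ω x' - 1/2 + ... `: with `ht x' = k₁ + 1/2`, `K = k₀ + 1`, `Above n x' (K + k)` with `k = k₁ - K ≥ ε √n - 1 ≥ (ε/2) √n`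
  for large `n`: the event of `tight` for `ε/2`. (The values of `ht` are `integer + 1/2`: `ht_ge`, `ht_iff`.)
* `mod_small`: `pth_mod` with `d = δ/2`, `n d + 2 ≤ δ n` for large `n`, `m = ε √n`.
* `near_small`: `pth_near`: for `|x - x'| ≤ 1 ≤ δ n`.
* `end_small`: `pth (-1) = ht (-n)/√n` (`pth_int`). `P (ht n ω (-n) > ε √n) ≤ P (Above n (-n) K)` with `K = ⌊ε √n - 1/2⌋` or so, which tends to `0` by `end_tight` (`r = 0`, `K ≥ C log n` for large `n`). If `ht n ω (-n) < -ε √n` then `Beneath n (-n) K` with `K = ⌊ε √n⌋` (`ht_low`), the same probability as `Above n (-n) K`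
  (`beneath_eq`, `DL/Refl.lean`).
-/

open Filter
open scoped Classical

namespace Pool.Agent.Helper49.PL

open Pool.Agent.Helper49.DL Pool.Agent.Helper49.DX Pool.Agent.Helper49.TT

private theorem large28 {c a : ℝ} (hc : 0 < c) (ha : 0 < a) :
    ∃ n₀ : ℕ, ∀ n : ℕ, n₀ ≤ n → c * Real.log n + 17 ≤ a * Real.sqrt n := by
  have h1 : ∀ᶠ n : ℕ in Filter.atTop, ‖Real.log n‖ ≤ a / (2 * c) * ‖(n : ℝ) ^ (1 / 2 : ℝ)‖ :=
    tendsto_natCast_atTop_atTop.eventually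
      ((isLittleO_log_rpow_atTop (r := 1 / 2) (by norm_num)).def (show 0 < a / (2 * c) by positivity))
  have h2 : ∀ᶠ n : ℕ in Filter.atTop, (34 / a) ^ 2 ≤ (n : ℝ) :=
    tendsto_natCast_atTop_atTop.eventually (Filter.eventually_ge_atTop _)
  obtain ⟨n₀, hn₀⟩ := Filter.eventually_atTop.1 (h1.and h2)
  refine ⟨n₀, fun n hn => ?_⟩
  obtain ⟨h3, h4⟩ := hn₀ n hn
  rw [← Real.sqrt_eq_rpow, Real.norm_eq_abs, Real.norm_eq_abs, abs_of_nonneg (Real.sqrt_nonneg _)] at h3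
  have h5 : Real.log n ≤ a / (2 * c) * Real.sqrt n := (le_abs_self _).trans h3
  have h6 : 34 / a ≤ Real.sqrt n := Real.le_sqrt_of_sq_le h4
  have h7 : 17 ≤ a / 2 * Real.sqrt n := by
    have h8 : 34 ≤ Real.sqrt n * a := (div_le_iff₀ ha).1 h6
    linarith
  have h9 : c * Real.log n ≤ a / 2 * Real.sqrt n := by
    calc c * Real.log n ≤ c * (a / (2 * c) * Real.sqrt n) := mul_le_mul_of_nonneg_left h5 hc.le
      _ = a / 2 * Real.sqrt n := by field_simp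
  linarith

private theorem PJ_mono28 {β J : ℝ} {n : ℕ} {E F : Cfg → Prop}
    (h : ∀ ω ∈ confs (box (n : ℤ) n) (eta 0), E ω → F ω) : PJ β J n E ≤ PJ β J n F := by
  refine avg_mono fun ω hω => ?_
  by_cases h1 : E ω
  · rw [if_pos h1, if_pos (h ω hω h1)]
  · rw [if_neg h1]
    split_ifs
    · exact zero_le_one
    · exact le_rfl

private theorem PJ_or28 {β J : ℝ} {n : ℕ} {E F : Cfg → Prop} :
    PJ β J n (fun ω => E ω ∨ F ω) ≤ PJ β J n E + PJ β J n F := by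
  unfold PJ
  rw [← avg_add]
  refine avg_mono fun ω _ => ?_
  by_cases h1 : E ω <;> by_cases h2 : F ω <;> simp [h1, h2]

/-- the values of `ht` -/
private theorem ht_val28 {n : ℕ} (hn : 1 ≤ n) {ω : Cfg} (hω : ω ∈ confs (box (n : ℤ) n) (eta 0)) {x : ℤ}
    (hx : |x| ≤ n) : ∃ k : ℤ, ht n ω x = k + 1 / 2 := by
  have h1 := (ht_ge hn hω hx (ht n ω x)).1 le_rfl
  have h2 := (ht_iff hn hω hx _).1 h1
  have h3 := Int.le_ceil (ht n ω x - 1 / 2)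
  exact ⟨⌈ht n ω x - 1 / 2⌉, by linarith⟩

private theorem step28 {n : ℕ} (hn : 1 ≤ n) {ω : Cfg} (hω : ω ∈ confs (box (n : ℤ) n) (eta 0)) {ε δ : ℝ}
    (hq : 1 ≤ ε / 2 * Real.sqrt n) {x x' : ℤ} (hx : |x| ≤ n) (hx' : |x'| ≤ n) (hd : |(x : ℝ) - x'| ≤ δ * n)
    (h : ε * Real.sqrt n < ht n ω x' - ht n ω x) :
    ∃ x x' K k : ℤ, |x| ≤ n ∧ |x'| ≤ n ∧ |(x : ℝ) - x'| ≤ δ * n ∧ ε / 2 * Real.sqrt n ≤ k ∧
        ¬ Above n x K ω ∧ Above n x' (K + k) ω := by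
  obtain ⟨k₀, h0⟩ := ht_val28 hn hω hx
  obtain ⟨k₁, h1⟩ := ht_val28 hn hω hx'
  refine ⟨x, x', k₀ + 1, k₁ - (k₀ + 1), hx, hx', hd, ?_, ?_, ?_⟩
  · push_cast
    rw [h0, h1] at h
    linarith
  · rw [ht_iff hn hω hx, h0]
    push_cast
    intro h2
    linarith
  · rw [ht_iff hn hω hx', h1]
    push_cast
    linarith

section

variable {β₁ β J : ℝ} (h0 : 0 ≤ β₁) (h : β₁ < β) (hm : 0 < mag β₁) (hJ : 1 < J) {ε t : ℝ} (hε : 0 < ε) (ht' : 0 < t)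

include h0 h hm hJ hε ht'

theorem osc_small : ∃ (δ : ℝ) (n₀ : ℕ), 0 < δ ∧ ∀ n : ℕ, n₀ ≤ n →
    PJ β J n (fun ω => ∃ x x' : ℤ, |x| ≤ n ∧ |x'| ≤ n ∧ |(x : ℝ) - x'| ≤ δ * n ∧
      ε * Real.sqrt n < |ht n ω x - ht n ω x'|) ≤ t := by
  obtain ⟨δ, n₀, hδ, h1⟩ := tight h0 h hm hJ (half_pos hε) ht'
  obtain ⟨n₁, h2⟩ := large28 (c := 1) (a := ε / 2) one_pos (half_pos hε)
  refine ⟨δ, max n₀ (max n₁ 1), hδ, fun n hn => ?_⟩
  have hn0 : n₀ ≤ n := le_trans (le_max_left _ _) hn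
  have hn1 : n₁ ≤ n := le_trans (le_max_left _ _) (le_trans (le_max_right _ _) hn)
  have hn2 : 1 ≤ n := le_trans (le_max_right _ _) (le_trans (le_max_right _ _) hn)
  refine le_trans (PJ_mono28 fun ω hω => ?_) (h1 n hn0)
  rintro ⟨x, x', hx, hx', hd, hlt⟩
  have hq : 1 ≤ ε / 2 * Real.sqrt n := by
    have h3 := h2 n hn1
    have h4 : 0 ≤ Real.log n := Real.log_nonneg (by exact_mod_cast hn2)
    linarith
  rcases le_total (ht n ω x) (ht n ω x') with h5 | h5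
  · rw [abs_sub_comm, abs_of_nonneg (sub_nonneg.2 h5)] at hlt
    exact step28 hn2 hω hq hx hx' hd hlt
  · rw [abs_of_nonneg (sub_nonneg.2 h5)] at hlt
    rw [abs_sub_comm] at hd
    exact step28 hn2 hω hq hx' hx hd hlt

theorem mod_small : ∃ (d : ℝ) (n₀ : ℕ), 0 < d ∧ ∀ n : ℕ, n₀ ≤ n →
    PJ β J n (fun ω => ∃ s s' : TI, |(s : ℝ) - s'| ≤ d ∧ ε < |pth n ω s - pth n ω s'|) ≤ t := by
  obtain ⟨δ, n₀, hδ, h1⟩ := osc_small h0 h hm hJ hε ht'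
  refine ⟨δ / 2, max n₀ (max ⌈4 / δ⌉₊ 1), half_pos hδ, fun n hn => ?_⟩
  have hn0 : n₀ ≤ n := le_trans (le_max_left _ _) hn
  have hn1 : ⌈4 / δ⌉₊ ≤ n := le_trans (le_max_left _ _) (le_trans (le_max_right _ _) hn)
  have hn2 : 1 ≤ n := le_trans (le_max_right _ _) (le_trans (le_max_right _ _) hn)
  refine le_trans (PJ_mono28 fun ω _ => ?_) (h1 n hn0)
  rintro ⟨s, s', hs, hlt⟩
  by_contra hne
  push Not at hne
  have h3 : (n : ℝ) * (δ / 2) + 2 ≤ δ * n := by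
    have h4 : 4 / δ ≤ n := le_trans (Nat.le_ceil _) (by exact_mod_cast hn1)
    rw [div_le_iff₀ hδ] at h4
    linarith
  have hq : 0 < Real.sqrt n := Real.sqrt_pos.2 (by exact_mod_cast hn2)
  have h5 := pth_mod hn2 ω (half_pos hδ).le
    (fun x x' hx hx' hd => hne x x' hx hx' (hd.trans h3)) s s' hs
  rw [mul_div_assoc, div_self hq.ne', mul_one] at h5
  linarith

theorem near_small : ∃ n₀ : ℕ, ∀ n : ℕ, n₀ ≤ n →
    PJ β J n (fun ω => ∃ s : TI, ε < |pth n ω s - ht n ω ⌊(n : ℝ) * (s : ℝ)⌋ / Real.sqrt n|) ≤ t := by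
  obtain ⟨δ, n₀, hδ, h1⟩ := osc_small h0 h hm hJ hε ht'
  refine ⟨max n₀ (max ⌈1 / δ⌉₊ 1), fun n hn => ?_⟩
  have hn0 : n₀ ≤ n := le_trans (le_max_left _ _) hn
  have hn1 : ⌈1 / δ⌉₊ ≤ n := le_trans (le_max_left _ _) (le_trans (le_max_right _ _) hn)
  have hn2 : 1 ≤ n := le_trans (le_max_right _ _) (le_trans (le_max_right _ _) hn)
  refine le_trans (PJ_mono28 fun ω _ => ?_) (h1 n hn0)
  rintro ⟨s, hlt⟩
  by_contra hne
  push Not at hne
  have h3 : 1 ≤ δ * n := by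
    have h4 : 1 / δ ≤ n := le_trans (Nat.le_ceil _) (by exact_mod_cast hn1)
    rw [div_le_iff₀ hδ] at h4
    linarith
  have hq : 0 < Real.sqrt n := Real.sqrt_pos.2 (by exact_mod_cast hn2)
  have h5 := pth_near hn2 ω s (m := ε * Real.sqrt n) (by positivity)
    (fun x x' hx hx' hd => hne x x' hx hx' (le_trans (by exact_mod_cast hd) h3))
  rw [mul_div_assoc, div_self hq.ne', mul_one] at h5
  linarith

theorem end_small : ∃ n₀ : ℕ, ∀ n : ℕ, n₀ ≤ n →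
    PJ β J n (fun ω => ε < |pth n ω ⟨-1, by norm_num, by norm_num⟩|) ≤ t := by
  obtain ⟨C, hC, h1⟩ := end_tight h0 h hm hJ.le
  obtain ⟨n₀, h2⟩ := h1 0 (t / 2) le_rfl (half_pos ht')
  obtain ⟨n₁, h3⟩ := large28 (c := C) (a := ε) hC hε
  refine ⟨max n₀.toNat (max n₁ 1), fun n hn => ?_⟩
  have hn0 : n₀ ≤ n := by
    have : n₀.toNat ≤ n := le_trans (le_max_left _ _) hn
    omega
  have hn1 : n₁ ≤ n := le_trans (le_max_left _ _) (le_trans (le_max_right _ _) hn)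
  have hn2 : 1 ≤ n := le_trans (le_max_right _ _) (le_trans (le_max_right _ _) hn)
  have hn2' : (1 : ℤ) ≤ n := by exact_mod_cast hn2
  have hx : |(-(n : ℤ))| ≤ n := by rw [abs_neg, Nat.abs_cast]
  have hq : 0 < Real.sqrt n := Real.sqrt_pos.2 (by exact_mod_cast hn2)
  have hbig := h3 n hn1
  have e1 : PJ β J n (Above n (-(n : ℤ)) ⌈ε * Real.sqrt n - 1 / 2⌉) ≤ t / 2 := by
    refine h2 n hn0 _ _ (by rw [abs_neg, Nat.abs_cast, sub_zero]) ?_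
    have h4 := Int.le_ceil (ε * Real.sqrt n - 1 / 2)
    push_cast
    linarith
  have e2 : PJ β J n (Beneath n (-(n : ℤ)) ⌊1 / 2 - -(ε * Real.sqrt n)⌋) ≤ t / 2 := by
    have e3 : PJ β J n (Beneath n (-(n : ℤ)) ⌊1 / 2 - -(ε * Real.sqrt n)⌋) =
        PJ β J n (Above n (-(n : ℤ)) ⌊1 / 2 - -(ε * Real.sqrt n)⌋) := beneath_eq hn2' β J _ _
    rw [e3]
    refine h2 n hn0 _ _ (by rw [abs_neg, Nat.abs_cast, sub_zero]) ?_
    have h4 := Int.lt_floor_add_one (1 / 2 - -(ε * Real.sqrt n))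
    push_cast
    linarith
  refine le_trans (le_trans (PJ_mono28 (F := fun ω => Above n (-(n : ℤ)) ⌈ε * Real.sqrt n - 1 / 2⌉ ω ∨
    Beneath n (-(n : ℤ)) ⌊1 / 2 - -(ε * Real.sqrt n)⌋ ω) fun ω hω hE => ?_) PJ_or28) (by linarith)
  have e4 := pth_int hn2 ω hx ⟨-1, by norm_num, by norm_num⟩ (by push_cast; ring)
  rw [e4, abs_div, abs_of_pos hq, lt_div_iff₀ hq, lt_abs] at hE
  rcases hE with hE | hE
  · exact Or.inl ((ht_ge hn2 hω hx _).1 hE.le)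
  · exact Or.inr (ht_low hn2 hω hx (by linarith))

end

end Pool.Agent.Helper49.PL
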